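import Pool.Agent.Q41.SU.Defs

/-!
# Statements, part 2: the cluster lemma, covariance, numerical bounds
-/

namespace Pool.Agent.Q41.SU

open Finset Polynomial

universe u

/-- the number of the rows with the same first `i` digits as the row `l` -/
noncomputable def dcl {ι : Type*} {A : Type*} (c : ℕ → ι → A) (i : ℕ) (l : ι) : ℕ :=
  {m | ∀ j < i, c j m = c j l}.ncard

/-- (C1) **Expansion at one level.** `cl` is a class function on the rows; the first coordinate is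
`A (cl l) + ε B l`, the second `A' (cl l) + ε' B' l`. Proof. The row `l` is the sum over `(s, r)` in
the box `[0, a] × [0, b]` of `B l ^ s * B' l ^ r * ε ^ s * ε' ^ r` times the row vector
`(binom(c₁, s) A ^ (c₁ - s) * binom(c₂, r) A' ^ (c₂ - r))_c`, which depends only on `cl l` and
`(s, r)`. Expand the determinant multilinearly over the choices `(s_l, r_l)` of all the rows; the
term vanishes if two rows of the same class have the same `(s, r)` (two proportional rows). For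
another choice, the points `(s_l, r_l)`, `l` in a class with `n` elements, are different, so the sum
of `w₁ s_l + w₂ r_l` over the class is at least `phi w₁ w₂ a b n`. -/
def S_exp : Prop :=
  ∀ (A : Type u) [CommRing A] (a b : ℕ) (C : Type) [DecidableEq C] (cl : II a b → C)
    (α α' : C → A) (β β' : II a b → A) (ε ε' : A),
    bd a b (fun l => α (cl l) + ε * β l) (fun l => α' (cl l) + ε' * β' l) ∈
      Ideal.span {z : A | ∃ m n : ℕ, z = ε ^ m * ε' ^ n ∧ ∀ w₁ w₂ : ℕ,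
        ∑ l, (phi w₁ w₂ a b (univ.filter fun l' => cl l' = cl l).card : ℝ) /
          ((univ.filter fun l' => cl l' = cl l).card : ℝ) ≤ (w₁ * m + w₂ * n : ℕ)}

/-- (C2) **The cluster lemma**, same digits in both coordinates. Proof. Work in the polynomial ring
`MvPolynomial (Fin M ⊕ Fin M) Λ` in the variables `ε_1, …, ε_M, ε'_1, …, ε'_M`; let
`x_l = ∑_{i<M} c_{i,l} ε_1 ⋯ ε_i + ε_1 ⋯ ε_M η_l` and `y_l` the same with `ε'` and `η'`. All
coefficients of `Q = bd a b x y` have norm at most `1` (the polynomials whose coefficients have norm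
at most `1` form a subring). For a level `1 ≤ i ≤ M` let the class of `l` be given by the first `i`
digits `c_{0,l}, …, c_{i-1,l}`; then `x_l = A_{cl l} + ε_i B_l` and `y_l = A'_{cl l} + ε'_i B'_l`, so
by (C1) every monomial of `Q` is divisible by some `ε_i ^ m ε'_i ^ n` with
`w₁ m + w₂ n ≥ V_i = ∑_l phi(n_i(l)) / n_i(l)` (`MvPolynomial.mem_ideal_span_monomial_image`). So in
every monomial the degrees `m_i`, `n_i` in `ε_i`, `ε'_i` satisfy `w₁ m_i + w₂ n_i ≥ V_i` for all `i`.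
Evaluate at `ε_i = ϖ`, `ε'_i = ϖ'`: the value of a monomial has norm at most
`∏_i exp (-θ (w₁ m_i + w₂ n_i)) ≤ exp (-θ ∑ V_i)`. -/
def S_clw : Prop :=
  ∀ (Λ : Type u) [NormedField Λ] [IsUltrametricDist Λ] (a b M w₁ w₂ : ℕ) (θ : ℝ) (_ : 0 ≤ θ)
    (ϖ ϖ' : Λ) (_ : ‖ϖ‖ ≤ Real.exp (-(w₁ * θ))) (_ : ‖ϖ'‖ ≤ Real.exp (-(w₂ * θ)))
    (c : ℕ → II a b → Λ) (η η' : II a b → Λ) (_ : ∀ i l, ‖c i l‖ ≤ 1) (_ : ∀ l, ‖η l‖ ≤ 1)
    (_ : ∀ l, ‖η' l‖ ≤ 1),
    ‖bd a b (fun l => ∑ i ∈ range M, c i l * ϖ ^ i + ϖ ^ M * η l)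
      (fun l => ∑ i ∈ range M, c i l * ϖ' ^ i + ϖ' ^ M * η' l)‖ ≤
      Real.exp (-(θ * ∑ i ∈ Icc 1 M, ∑ l, (phi w₁ w₂ a b (dcl c i l) : ℝ) / (dcl c i l : ℝ)))

/-- (C3) **The cluster lemma**, independent digits. Proof. As (C2), with digits `c'` and `M'`
levels for the second coordinate; the variable `ε_i` is treated by (C1) with `α' = 0`, `β' = y_l`,
`ε' = 1`, so that every monomial has degree at least `∑_l phi 1 0 (n_i(l)) / n_i(l)` in `ε_i`, and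
the variable `ε'_i` by (C1) with `α = 0`, `β = x_l`, `ε = 1`. -/
def S_cli : Prop :=
  ∀ (Λ : Type u) [NormedField Λ] [IsUltrametricDist Λ] (a b M M' : ℕ) (θ θ' : ℝ) (_ : 0 ≤ θ)
    (_ : 0 ≤ θ') (ϖ ϖ' : Λ) (_ : ‖ϖ‖ ≤ Real.exp (-θ)) (_ : ‖ϖ'‖ ≤ Real.exp (-θ'))
    (c c' : ℕ → II a b → Λ) (η η' : II a b → Λ) (_ : ∀ i l, ‖c i l‖ ≤ 1)
    (_ : ∀ i l, ‖c' i l‖ ≤ 1) (_ : ∀ l, ‖η l‖ ≤ 1) (_ : ∀ l, ‖η' l‖ ≤ 1),
    ‖bd a b (fun l => ∑ i ∈ range M, c i l * ϖ ^ i + ϖ ^ M * η l)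
      (fun l => ∑ i ∈ range M', c' i l * ϖ' ^ i + ϖ' ^ M' * η' l)‖ ≤
      Real.exp (-(θ * ∑ i ∈ Icc 1 M, ∑ l, (phi 1 0 a b (dcl c i l) : ℝ) / (dcl c i l : ℝ) +
        θ' * ∑ i ∈ Icc 1 M', ∑ l, (phi 0 1 a b (dcl c' i l) : ℝ) / (dcl c' i l : ℝ)))

/-- (C4) **Digits.** Proof. Choose `π` with `u π = 1` and for each `x` with `‖ι x‖ ≤ 1` a digit
`dig x` in `k` with `‖ι x - dig x‖ < 1`; norms of elements of `E` are powers of `exp (-1 / e)`, so
`‖ι x - dig x‖ ≤ ‖ι π‖` and `(x - dig x) / π` is integral again. Iterate: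
`z_l = ∑_{i<M} c_{i,l} π ^ i + π ^ M η_l`. Digits are unique (`‖c - c'‖ < 1` implies `c = c'`), so
`l` and `m` have the same first `i` digits iff `ι (z_l - z_m) / π ^ i` is integral, that is iff
`l = m` or `i ≤ u (z_l - z_m)`. -/
def S_dig : Prop :=
  ∀ (k E Λ : Type u) [Field k] [Field E] [Algebra k E] [NormedField Λ] [IsUltrametricDist Λ]
    [Algebra k Λ] (_ : ∀ c : k, c ≠ 0 → ‖algebraMap k Λ c‖ = 1) (ι : E →ₐ[k] Λ) (e : ℕ)
    (u : E → ℤ) (_ : IsPl k ι e u) (J : Type) [Fintype J] (z : J → E) (_ : Function.Injective z)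
    (_ : ∀ l, ‖ι (z l)‖ ≤ 1) (M : ℕ),
    ∃ (π : E) (c : ℕ → J → k) (η : J → E), π ≠ 0 ∧ u π = 1 ∧ (∀ l, ‖ι (η l)‖ ≤ 1) ∧
      (∀ l, z l = ∑ i ∈ range M, algebraMap k E (c i l) * π ^ i + π ^ M * η l) ∧
      ∀ i ≤ M, ∀ l m, (∀ j < i, c j m = c j l) ↔ (m = l ∨ (i : ℤ) ≤ u (z l - z m))

/-- (C5) **Weighted bound at a place**, from (C2) and (C4): apply `ι` and `Φ ∘ ι` to the digit
expansion; `Φ` fixes the digits, `‖ι π‖ = exp (-1 / e)`, `‖Φ (ι π)‖ = exp (-Θ / e)`; take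
`w₁ = 1`, `w₂ = Θ`, `θ = 1 / e`; the classes of the digits are the classes of `o`. -/
def S_plw : Prop :=
  ∀ (k E Λ : Type u) [Field k] [Field E] [Algebra k E] [NormedField Λ] [IsUltrametricDist Λ]
    [Algebra k Λ] (_ : ∀ c : k, c ≠ 0 → ‖algebraMap k Λ c‖ = 1) (ι : E →ₐ[k] Λ) (e : ℕ)
    (u : E → ℤ) (_ : IsPl k ι e u) (a b Θ M : ℕ) (z : II a b → E) (_ : Function.Injective z)
    (_ : ∀ l, ‖ι (z l)‖ ≤ 1) (Φ : Λ →ₐ[k] Λ) (_ : ∀ x, ‖Φ x‖ = ‖x‖ ^ Θ),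
    ‖bd a b (fun l => ι (z l)) (fun l => Φ (ι (z l)))‖ ≤
      Real.exp (-(LS (fun n => (phi 1 Θ a b n : ℝ)) M (fun l m => u (z l - z m)) / e))

/-- (C6) **Independent bound at two places**, from (C3) and (C4). -/
def S_pli : Prop :=
  ∀ (k E Λ : Type u) [Field k] [Field E] [Algebra k E] [NormedField Λ] [IsUltrametricDist Λ]
    [Algebra k Λ] (_ : ∀ c : k, c ≠ 0 → ‖algebraMap k Λ c‖ = 1) (ι : E →ₐ[k] Λ) (e : ℕ)
    (u : E → ℤ) (_ : IsPl k ι e u) (ι' : E →ₐ[k] Λ) (e' : ℕ) (u' : E → ℤ) (_ : IsPl k ι' e' u')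
    (a b Θ M : ℕ) (z z' : II a b → E) (_ : Function.Injective z) (_ : Function.Injective z')
    (_ : ∀ l, ‖ι (z l)‖ ≤ 1) (_ : ∀ l, ‖ι' (z' l)‖ ≤ 1) (Φ : Λ →ₐ[k] Λ)
    (_ : ∀ x, ‖Φ x‖ = ‖x‖ ^ Θ),
    ‖bd a b (fun l => ι (z l)) (fun l => Φ (ι' (z' l)))‖ ≤
      Real.exp (-(LS (fun n => (phi 1 0 a b n : ℝ)) M (fun l m => u (z l - z m)) / e +
        Θ * (LS (fun n => (phi 0 1 a b n : ℝ)) M (fun l m => u' (z' l - z' m)) / e')))

/-- (C7) **Vertical and horizontal bounds**, from (C3) (with `M' = 0`, resp. `M = 0`) and (C4). -/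
def S_plv : Prop :=
  ∀ (k E Λ : Type u) [Field k] [Field E] [Algebra k E] [NormedField Λ] [IsUltrametricDist Λ]
    [Algebra k Λ] (_ : ∀ c : k, c ≠ 0 → ‖algebraMap k Λ c‖ = 1) (ι : E →ₐ[k] Λ) (e : ℕ)
    (u : E → ℤ) (_ : IsPl k ι e u) (a b M : ℕ) (z : II a b → E) (_ : Function.Injective z)
    (_ : ∀ l, ‖ι (z l)‖ ≤ 1) (y : II a b → Λ) (_ : ∀ l, ‖y l‖ ≤ 1),
    ‖bd a b (fun l => ι (z l)) y‖ ≤
      Real.exp (-(LS (fun n => (phi 1 0 a b n : ℝ)) M (fun l m => u (z l - z m)) / e)) ∧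
    ‖bd a b y (fun l => ι (z l))‖ ≤
      Real.exp (-(LS (fun n => (phi 0 1 a b n : ℝ)) M (fun l m => u (z l - z m)) / e))

/-- (C8) **Covariance.** Proof. `(γ x + δ) ^ a * z ^ c = (α x + β) ^ c (γ x + δ) ^ (a - c)` is
`∑_{c'} S_{c',c} x ^ c'` with a matrix `S` of size `a + 1` depending only on `m`. Its determinant is
`det m ^ (a (a + 1) / 2)`: it is enough to prove this polynomial identity over an infinite field
with `a + 1` different points `y_i` at which `γ y + δ ≠ 0`, where it follows from the Vandermonde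
determinant and `z_i - z_j = det m (y_i - y_j) / ((γ y_i + δ) (γ y_j + δ))`. Then
`diag((γ x_l + δ) ^ a) * (z_l ^ c₁ y_l ^ c₂) = (x_l ^ c₁ y_l ^ c₂) * (S ⊗ 1)`
(`Matrix.det_kronecker`). The second coordinate is the same. -/
def S_cov : Prop :=
  ∀ (F : Type u) [Field F] (a b : ℕ) (m : Mb F) (x y : II a b → F) (_ : ∀ l, m.den (x l) ≠ 0),
    bd a b (fun l => m.app (x l)) y * ∏ l, m.den (x l) ^ a =
      m.det ^ ((b + 1) * (a * (a + 1) / 2)) * bd a b x y ∧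
    bd a b y (fun l => m.app (x l)) * ∏ l, m.den (x l) ^ b =
      m.det ^ ((a + 1) * (b * (b + 1) / 2)) * bd a b y x

/-- (C9) **Covariance for the norms.** `N = (a + 1) (b + 1)` is the number of rows. Proof. With
`z = m.app x`, `z_l - z_j = det m (x_l - x_j) / (den x_l * den x_j)`; sum the logarithms over
`l ≠ j`: `Z = U + 2 (N - 1) ∑ log ‖den x_l‖ - N (N - 1) log ‖det m‖` (where `U`, `Z` are the sums of
`-log ‖x_l - x_j‖`, `-log ‖z_l - z_j‖`). By (C8)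
`‖bd x y‖ = ‖bd z y‖ exp (a ∑ log ‖den x_l‖ - (a N / 2) log ‖det m‖)`, and the exponent is
`-(a / (2 (N - 1))) (U - Z)`. -/
def S_covn : Prop :=
  ∀ (Λ : Type u) [NormedField Λ] (a b : ℕ) (_ : 1 ≤ a + b) (m : Mb Λ) (_ : m.det ≠ 0)
    (x y : II a b → Λ) (_ : Function.Injective x) (_ : ∀ l, m.den (x l) ≠ 0),
    ‖bd a b x y‖ = Real.exp (-((a : ℝ) / (2 * ((a + 1) * (b + 1) - 1)) *
        ((∑ l, ∑ j ∈ univ.erase l, -Real.log ‖x l - x j‖) -
          ∑ l, ∑ j ∈ univ.erase l, -Real.log ‖m.app (x l) - m.app (x j)‖))) *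
      ‖bd a b (fun l => m.app (x l)) y‖ ∧
    ‖bd a b y x‖ = Real.exp (-((b : ℝ) / (2 * ((a + 1) * (b + 1) - 1)) *
        ((∑ l, ∑ j ∈ univ.erase l, -Real.log ‖x l - x j‖) -
          ∑ l, ∑ j ∈ univ.erase l, -Real.log ‖m.app (x l) - m.app (x j)‖))) *
      ‖bd a b y (fun l => m.app (x l))‖

/-- (C10) **The unweighted minima.** Proof. For `n ≤ (a + 1) (b + 1)` one has
`phi 1 0 a b n = ∑_{i<n} ⌊i / (b + 1)⌋` (take the points in the order of `s`; each value of `s`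
occurs at most `b + 1` times), and `i / (b + 1) - 1 ≤ ⌊i / (b + 1)⌋ ≤ i / (b + 1)`. The same with
`a` for `phi 0 1`. -/
def S_phi : Prop :=
  ∀ a b n : ℕ, n ≤ (a + 1) * (b + 1) →
    (phi 1 0 a b n : ℝ) ≤ n * (n - 1) / (2 * (b + 1)) ∧
    (n : ℝ) * (n - 1) / (2 * (b + 1)) - n ≤ phi 1 0 a b n ∧
    (phi 0 1 a b n : ℝ) ≤ n * (n - 1) / (2 * (a + 1)) ∧
    (n : ℝ) * (n - 1) / (2 * (a + 1)) - n ≤ phi 0 1 a b n

/-- (C11) **The weighted minimum**, with `a = Θ b`. Proof. For a set `T` of `n` points of the box and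
an integer `0 ≤ j ≤ b`, `∑_T (s + Θ r) ≥ Θ j n - ∑_T (Θ j - s - Θ r)⁺ ≥ Θ j n -
∑_{r ≤ j} ∑_{s ≥ 0} (Θ (j - r) - s)⁺ = Θ j n - Θ ^ 2 j (j + 1) (2 j + 1) / 12 - Θ j (j + 1) / 4`,
because `∑_{s ≥ 0} (m - s)⁺ = m (m + 1) / 2`. For `n ≤ Θ` use instead the threshold `n`:
`∑_T (s + Θ r) ≥ n * n - n (n + 1) / 2 = n (n - 1) / 2` (the points with `s + Θ r < n ≤ Θ` have
`r = 0`). Put `x = sqrt (2 n / Θ)` and choose `j = ⌊x⌋` or `b` (note `n ≤ N / 2` gives `x ≤ b + 2` or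
so): the first bound is about `(2 / 3) Θ x n`, and the right side is at most
`(49 / 48) n ^ 2 / b + Θ ν min (2 n, n ^ 2 / b)` where `n / b = Θ x ^ 2 / (2 b) ≤ Θ x / 2` (up to
terms of lower order): the ratio of the left side to `(49 / 48) n ^ 2 / b` is at least `1.3`, and
the term with `ν` is small because `b ≥ 100 Θ ν ^ 2`. The inequality was checked numerically for
many values of the parameters with `b = 50 Θ ν ^ 2` (ratio at least `1.15`), so there is room. For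
`Θ < n < 100 Θ` or so be careful: there `min = n (n - 1) / b` and `j = ⌊x⌋` (or the threshold
`Θ j + i` in place of `Θ j`) gives at least `n (n - 1) / 20`, say. -/
def S_num : Prop :=
  ∀ Θ ν b n : ℕ, 1 ≤ Θ → 1 ≤ ν → 100 * Θ * ν ^ 2 ≤ b → 2 ≤ n →
    2 * n ≤ (Θ * b + 1) * (b + 1) →
    (49 : ℝ) / 48 * (n * (n - 1)) / b + Θ * ν * min (2 * (n : ℝ)) (n * (n - 1) / b) ≤
      phi 1 Θ (Θ * b) b n

/-- (C12) **Sums over levels.** Proof. `cnt o i l - 1` is the number of `m ≠ l` with `i ≤ o l m`. -/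
def S_lsq : Prop :=
  ∀ (J : Type) [Fintype J] [DecidableEq J] (M : ℕ) (o : J → J → ℤ),
    (∀ l m, l ≠ m → 0 ≤ o l m ∧ o l m ≤ M) →
    LS (fun n => (n : ℝ) * (n - 1)) M o = ∑ l, ∑ m ∈ univ.erase l, (o l m : ℝ)

end Pool.Agent.Q41.SU
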