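import Pool.Agent.Q41.SU.Defs

/-!
# Statements, part 3: the norm polynomial, the counting lemma, the main inequality
-/

namespace Pool.Agent.Q41.SU

open Finset Polynomial TensorProduct

universe u

/-- (T1) **Norms of polynomials in `s`.** Proof. The terms `c_n s ^ n` of different degrees have
different norms `exp (-n)`. -/
def S_npol : Prop :=
  ∀ (k Λ : Type u) [Field k] [NormedField Λ] [IsUltrametricDist Λ] [Algebra k Λ] (s : Λ),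
    IsAmb k Λ s → ∀ (P : k[X]) (v : ℕ), X ^ v ∣ P ↔ ‖aeval s P‖ ≤ Real.exp (-(v : ℝ))

/-- (T2) **Descent of invariant tensors.** `V`, `W` are subspaces stable under the group. Proof. An
element of the image of `V ⊗ W` is `∑ v_j ⊗ w_j` with linearly independent `w_j` in `W` (part of a
basis of `E` over `k`) and unique `v_j` in `V`. Invariance under `g ⊗ 1` gives `g v_j = v_j`. So the
element is in the image of `V^G ⊗ W`; the same in the second factor. -/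
def S_desc : Prop :=
  ∀ (k E : Type u) [Field k] [Field E] [Algebra k E] (G : Subgroup (E ≃ₐ[k] E))
    (V W : Submodule k E) (_ : ∀ g ∈ G, ∀ x ∈ V, g x ∈ V) (_ : ∀ g ∈ G, ∀ x ∈ W, g x ∈ W)
    (z : E ⊗[k] E),
    z ∈ Submodule.span k {y : E ⊗[k] E | ∃ v ∈ V, ∃ w ∈ W, y = v ⊗ₜ[k] w} →
    (∀ g ∈ G, ∀ h ∈ G, Algebra.TensorProduct.map (g : E →ₐ[k] E) (h : E →ₐ[k] E) z = z) →
    z ∈ Submodule.span k {y : E ⊗[k] E | ∃ v ∈ V, (∀ g ∈ G, g v = v) ∧ ∃ w ∈ W,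
      (∀ g ∈ G, g w = w) ∧ y = v ⊗ₜ[k] w}

/-- (T3) **Rational functions with poles in `S₀`.** `A = ∏ (X - t₀)` over `S₀`. Proof. `y` is fixed by
`G`, so `y = r(t) / q(t)` with coprime `r`, `q` (`IsGal.rat`). A root `t₀` of `q` outside `S₀` would
give `‖ι y‖ > 1`. As `k` is algebraically closed, `q` divides `A ^ M` for large `M`, and
`y A(t) ^ M = P(t)`; at infinity `‖ι_∞ (P(t))‖ = exp (deg P)`, `‖ι_∞ (A(t))‖ = exp (deg A)`. -/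
def S_ratp : Prop :=
  ∀ (k E Λ : Type u) [Field k] [IsAlgClosed k] [Field E] [Algebra k E] [NormedField Λ]
    [IsUltrametricDist Λ] [Algebra k Λ] (t : E) (s : Λ) (G : Subgroup (E ≃ₐ[k] E)) [Fintype G],
    IsAmb k Λ s → IsGal k t G → ∀ (pp : PlSys k E Λ t s) (S₀ : Finset k) (y : E),
    (∀ g ∈ G, g y = y) → pp.Int G S₀ y →
    ∃ M₀ : ℕ, ∀ M ≥ M₀, ∃ P : k[X], P.natDegree ≤ M * S₀.card ∧
      y * aeval t (∏ t₀ ∈ S₀, (X - C t₀)) ^ M = aeval t P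

/-- (T4) **The norm polynomial.** Proof. The product `N` over `G × G` of the determinants lies in the
span of the `f ⊗ f'` with `f`, `f'` in the ring `R` of the elements `y` with `pp.Int G S₀ y` (`R` is a
subring containing `k`, stable under `G`, and contains the `x l`), and it is invariant under
`G × G` (the factors are permuted). By (T2) it is a finite sum of `f ⊗ f'` with `f`, `f'` in `R`
fixed by `G`, and (T3) applies to the `f`, `f'`. -/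
def S_ten : Prop :=
  ∀ (k E Λ : Type u) [Field k] [IsAlgClosed k] [Field E] [Algebra k E] [NormedField Λ]
    [IsUltrametricDist Λ] [Algebra k Λ] (t : E) (s : Λ) (G : Subgroup (E ≃ₐ[k] E)) [Fintype G],
    IsAmb k Λ s → IsGal k t G → ∀ (pp : PlSys k E Λ t s) (S₀ : Finset k) (a b : ℕ)
    (x : II a b → E), (∀ l, pp.Int G S₀ (x l)) →
    ∃ M₀ : ℕ, ∀ M ≥ M₀, ∃ F : k[X][X], F.natDegree ≤ M * S₀.card ∧
      (∀ i, (F.coeff i).natDegree ≤ M * S₀.card) ∧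
      ev F (t ⊗ₜ[k] (1 : E)) ((1 : E) ⊗ₜ[k] t) =
        (aeval t (∏ t₀ ∈ S₀, (X - C t₀)) ^ M) ⊗ₜ[k] (aeval t (∏ t₀ ∈ S₀, (X - C t₀)) ^ M) *
        ∏ g : G, ∏ h : G, bd a b (fun l => ((g : E ≃ₐ[k] E) (x l)) ⊗ₜ[k] (1 : E))
          (fun l => (1 : E) ⊗ₜ[k] ((h : E ≃ₐ[k] E) (x l)))

/-- (T5) **Vertical and horizontal lines.** Proof. Let `F ≠ 0`, `F = (T₁ - t₀) ^ m F'` with
`F'(t₀, T₂) ≠ 0`. Then `F(t₀ + s, c' + s) = s ^ m F'(t₀ + s, c' + s)` and `F'(t₀, c') ≠ 0` for all but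
finitely many `c'`, so `v ≤ m`. The same with the roles exchanged. -/
def S_ev : Prop :=
  ∀ (k : Type u) [Field k] (F : k[X][X]) (t₀ : k) (v : ℕ),
    ({c' : k | X ^ v ∣ ev F (C t₀ + X) (C c' + X)}.Infinite → C ((X - C t₀) ^ v) ∣ F) ∧
    ({c' : k | X ^ v ∣ ev F (C c' + X) (C t₀ + X)}.Infinite → (X - C (C t₀)) ^ v ∣ F)

/-- (T6) **The counting lemma.** Proof. Let `c₀ ≤ c` be the exact power of `T₂ - T₁` dividing `F`.
`F = ∏ (T₁ - t₀) ^ v(t₀) ∏ (T₂ - t₀) ^ h(t₀) (T₂ - T₁) ^ c₀ F₁` (products over `S₀`; the factors are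
coprime) with `F₁(T, T) ≠ 0`, and the degrees of `F₁` in `T₁`, `T₂` are at most `D₁ - ∑ v - c₀`,
`D₂ - ∑ h - c₀`. Let `t₀` be in `S`, `w = W - v - Θ h - c₀`. As `Θ ≥ 2`, the order of
`F(t₀ + s, t₀ + c' s ^ Θ)` in `s` is `v + Θ h + c₀` plus that of `F₁(t₀ + s, t₀ + c' s ^ Θ)`, for
`c' ≠ 0`. Write `F₁ = ∑ f_{ij} (T₁ - t₀) ^ i (T₂ - t₀) ^ j`. The coefficient of `s ^ m` in
`F₁(t₀ + s, t₀ + c' s ^ Θ)` is `∑_{i + Θ j = m} f_{ij} c' ^ j`; for `m < w` it vanishes for infinitely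
many `c'`, so `f_{ij} = 0` if `i + Θ j < w`. Hence `f_{ij} ≠ 0` implies `Θ (i + j) ≥ w`, so that the
order at `t₀` of `F₁(T, T)` is at least `w / Θ`. The sum over `S` is at most the degree of
`F₁(T, T)`, which is at most `D₁ + D₂ - ∑ v - ∑ h - 2 c₀`. -/
def S_count : Prop :=
  ∀ (k : Type u) [Field k] [Infinite k] (F : k[X][X]) (_ : F ≠ 0) (D₁ D₂ : ℕ)
    (_ : F.natDegree ≤ D₂) (_ : ∀ i, (F.coeff i).natDegree ≤ D₁) (S S₀ : Finset k) (_ : S ⊆ S₀)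
    (v h W : k → ℕ) (Θ c : ℕ) (_ : 2 ≤ Θ) (_ : ∀ t₀ ∈ S₀, C ((X - C t₀) ^ v t₀) ∣ F)
    (_ : ∀ t₀ ∈ S₀, (X - C (C t₀)) ^ h t₀ ∣ F) (_ : ¬ (X - C X) ^ (c + 1) ∣ F)
    (_ : ∀ t₀ ∈ S, {c' : k | ¬ X ^ W t₀ ∣ ev F (C t₀ + X) (C t₀ + C c' * X ^ Θ)}.Finite),
    ∑ t₀ ∈ S, ((W t₀ : ℤ) - v t₀ - Θ * h t₀ - c) ≤
      Θ * ((D₁ : ℤ) + D₂ - ∑ t₀ ∈ S₀, (v t₀ : ℤ) - ∑ t₀ ∈ S₀, (h t₀ : ℤ))

/-- the gain function -/
noncomputable def gam (a b Θ n : ℕ) : ℝ :=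
  (phi 1 Θ a b n : ℝ) - phi 1 0 a b n - Θ * phi 0 1 a b n

/-- the loss function -/
noncomputable def kap (a b n : ℕ) : ℝ :=
  ((a : ℝ) + b) / (2 * (((a : ℝ) + 1) * (b + 1) - 1)) * (n * ((n : ℝ) - 1)) - phi 0 1 a b n -
    phi 1 0 a b n

/-- the covariance term of the family `x`, `z` at a place -/
noncomputable def cvt {E : Type*} [Field E] {J : Type*} [Fintype J] [DecidableEq J] (e : ℕ)
    (u : E → ℤ) (x z : J → E) : ℝ :=
  (∑ l, ∑ j ∈ univ.erase l, (u (x l - x j) : ℝ) / e) -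
    ∑ l, ∑ j ∈ univ.erase l, (u (z l - z j) : ℝ) / e

/-- (T7) **The four bounds at a place for original coordinates.** Here `ι`, `ι'` are two embeddings
defining places, `m`, `m'` Moebius maps which make the family `x`, resp. `x'`, integral at `ι`, resp.
`ι'`. Proof. (C9) for the families `ι (x l)`, `Φ (ι' (x' l))` in `Λ` and the Moebius maps `ι m`,
`Φ (ι' m')`; `-log ‖ι y‖ = u y / e`, `-log ‖Φ (ι' y)‖ = Θ u' y / e'`; then (C5), (C6), (C7) for the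
integral families `m.app x`, `m'.app x'`. (The statements `S_plw`, `S_pli`, `S_plv`, `S_covn` of
`Stm2.lean` may be assumed.) -/
def S_pair : Prop :=
  ∀ (k E Λ : Type u) [Field k] [Field E] [Algebra k E] [NormedField Λ] [IsUltrametricDist Λ]
    [Algebra k Λ] (_ : ∀ c : k, c ≠ 0 → ‖algebraMap k Λ c‖ = 1) (ι : E →ₐ[k] Λ) (e : ℕ)
    (u : E → ℤ) (_ : IsPl k ι e u) (ι' : E →ₐ[k] Λ) (e' : ℕ) (u' : E → ℤ) (_ : IsPl k ι' e' u')
    (a b Θ M : ℕ) (_ : 1 ≤ a + b) (_ : 1 ≤ Θ) (x x' : II a b → E) (_ : Function.Injective x)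
    (_ : Function.Injective x') (m m' : Mb E) (_ : m.det ≠ 0) (_ : m'.det ≠ 0)
    (_ : ∀ l, m.den (x l) ≠ 0) (_ : ∀ l, m'.den (x' l) ≠ 0) (_ : ∀ l, ‖ι (m.app (x l))‖ ≤ 1)
    (_ : ∀ l, ‖ι' (m'.app (x' l))‖ ≤ 1) (Φ : Λ →ₐ[k] Λ) (_ : ∀ x, ‖Φ x‖ = ‖x‖ ^ Θ),
    (∀ y : II a b → Λ, (∀ l, ‖y l‖ ≤ 1) →
      ‖bd a b (fun l => ι (x l)) y‖ ≤ Real.exp (-((a : ℝ) / (2 * ((a + 1) * (b + 1) - 1)) *
        cvt e u x (fun l => m.app (x l)) +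
        LS (fun n => (phi 1 0 a b n : ℝ)) M (fun l j => u (m.app (x l) - m.app (x j))) / e)) ∧
      ‖bd a b y (fun l => ι (x l))‖ ≤ Real.exp (-((b : ℝ) / (2 * ((a + 1) * (b + 1) - 1)) *
        cvt e u x (fun l => m.app (x l)) +
        LS (fun n => (phi 0 1 a b n : ℝ)) M (fun l j => u (m.app (x l) - m.app (x j))) / e))) ∧
    ‖bd a b (fun l => ι (x l)) (fun l => Φ (ι' (x' l)))‖ ≤
      Real.exp (-((a : ℝ) / (2 * ((a + 1) * (b + 1) - 1)) * cvt e u x (fun l => m.app (x l)) +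
        Θ * ((b : ℝ) / (2 * ((a + 1) * (b + 1) - 1)) * cvt e' u' x' (fun l => m'.app (x' l))) +
        LS (fun n => (phi 1 0 a b n : ℝ)) M (fun l j => u (m.app (x l) - m.app (x j))) / e +
        Θ * (LS (fun n => (phi 0 1 a b n : ℝ)) M
          (fun l j => u' (m'.app (x' l) - m'.app (x' j))) / e'))) ∧
    ‖bd a b (fun l => ι (x l)) (fun l => Φ (ι (x l)))‖ ≤
      Real.exp (-((a : ℝ) / (2 * ((a + 1) * (b + 1) - 1)) * cvt e u x (fun l => m.app (x l)) +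
        Θ * ((b : ℝ) / (2 * ((a + 1) * (b + 1) - 1)) * cvt e u x (fun l => m.app (x l))) +
        LS (fun n => (phi 1 Θ a b n : ℝ)) M (fun l j => u (m.app (x l) - m.app (x j))) / e))

/-- (T8) **The main inequality.** `ν = |G|`, `N = (a + 1) (b + 1)`. Proof. Let `F`, `M'` (large) be as
in (T4) and evaluate `F` by the `k`-algebra homomorphism `E ⊗ E → Λ` given by two embeddings.
Vertical: `ι_{t₀}`, `ι_{c'}` for `t₀` in `S₀`, `c'` outside `S₀` (`T₁ = t₀ + s`, `T₂ = c' + s`; the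
`ι_{c'} (h x_l)` are integral): by (T7) the norm of `F(t₀ + s, c' + s)` is at most `exp (-(M' + V))`,
`V(t₀) = ν ∑_g (a / (2 (N - 1)) cvt_g + LS_g(phi 1 0) / e)`; so (T1), (T5) give the divisibility of `F`
by `(T₁ - t₀) ^ v`, `v = ⌈M' + V⌉` (nonnegative as `M'` is large). Horizontal: the same with
`H(t₀) = ν ∑_g (b / (2 (N - 1)) cvt_g + LS_g(phi 0 1) / e)`, `h = ⌈M' + H⌉`. Weighted, for `t₀` in `S`
and any `c' ≠ 0`: `ι_{t₀}`, `Φ ∘ ι_{t₀}` with `Φ s = c' s ^ Θ` (`T₁ = t₀ + s`, `T₂ = t₀ + c' s ^ Θ`):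
by (T7), for the pairs `(g, g)` the last bound and for `g ≠ h` the third, the norm is at most
`exp (-(M' (1 + Θ) + W₀))` with `W₀ = V + Θ H + ∑_g LS_g(gam) / e`; `W = ⌈M' (1 + Θ) + W₀⌉`.
Diagonal: evaluate at `(C, τ)` in `PowerSeries E`: `F(t, t + X)` is `A(t) ^ M' A(t + X) ^ M'` (a unit
at `X = 0`) times the product over `(g, h)` of `bd (C (g x)) (τ (h x))`, which is the image under `g`
of `bd (C x) (τ (g⁻¹ h x))`, of order at most `c`; so the order of `F(t, t + X)` is at most `ν² c`,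
`F ≠ 0` and `(T₂ - T₁) ^ (ν² c + 1)` does not divide `F`. Now (T6) with `D₁ = D₂ = M' |S₀|`:
`W - v - Θ h ≥ ∑_g LS_g(gam) / e - 1 - Θ`, and `D₁ - ∑ v ≤ -∑ V`, `D₂ - ∑ h ≤ -∑ H`. The sum over `S₀`
and `g` of `∑_{l ≠ j} u(g(x_l - x_j)) / e` is zero by the product formula (F5), and
`∑_{l ≠ j} u(z_l - z_j) = LS(n (n - 1))` by (C12), so `-∑ V - ∑ H = ν ∑_{S₀} ∑_g LS_g(kap) / e`.
(`S_npol`, `S_ten`, `S_ev`, `S_count`, `S_pair`, `S_prod`, `S_lsq` may be assumed.) -/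
def S_mi : Prop :=
  ∀ (k E Λ : Type u) [Field k] [IsAlgClosed k] [Field E] [Algebra k E] [NormedField Λ]
    [IsUltrametricDist Λ] [Algebra k Λ] (t : E) (s : Λ) (G : Subgroup (E ≃ₐ[k] E)) [Fintype G],
    IsAmb k Λ s → IsGal k t G → ∀ (pp : PlSys k E Λ t s) (S S₀ : Finset k) (_ : S ⊆ S₀)
    (a b Θ M c : ℕ) (_ : 1 ≤ a) (_ : 1 ≤ b) (_ : 2 ≤ Θ) (x : II a b → E)
    (_ : Function.Injective x) (_ : ∀ l, pp.Int G S₀ (x l))
    (_ : ∀ l j, l ≠ j → pp.Unit G S₀ (x l - x j)) (m : k → G → Mb E)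
    (_ : ∀ t₀ ∈ S₀, ∀ g, (m t₀ g).det ≠ 0) (_ : ∀ t₀ ∈ S₀, ∀ g l, (m t₀ g).den (x l) ≠ 0)
    (_ : ∀ t₀ ∈ S₀, ∀ (g : G) l, ‖pp.ι t₀ ((g : E ≃ₐ[k] E) ((m t₀ g).app (x l)))‖ ≤ 1)
    (_ : ∀ t₀ ∈ S₀, ∀ (g : G) l j, l ≠ j →
      pp.u t₀ ((g : E ≃ₐ[k] E) ((m t₀ g).app (x l) - (m t₀ g).app (x j))) ≤ M)
    (τ : E →ₐ[k] PowerSeries E) (_ : τ t = PowerSeries.C t + PowerSeries.X)
    (_ : ∀ g ∈ G, ∀ y, τ (g y) = PowerSeries.map ((g : E →ₐ[k] E) : E →+* E) (τ y))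
    (_ : ∀ h ∈ G, ¬ (PowerSeries.X : PowerSeries E) ^ (c + 1) ∣
      bd a b (fun l => PowerSeries.C (x l)) (fun l => τ (h (x l)))),
    ∑ t₀ ∈ S, ∑ g : G, LS (gam a b Θ) M (fun l j => pp.u t₀ ((g : E ≃ₐ[k] E)
        ((m t₀ g).app (x l) - (m t₀ g).app (x j)))) / pp.e t₀ ≤
      (S.card : ℝ) * ((Fintype.card G : ℝ) ^ 2 * c + 1 + Θ) +
        Θ * Fintype.card G * ∑ t₀ ∈ S₀, ∑ g : G, LS (kap a b) M (fun l j =>
          pp.u t₀ ((g : E ≃ₐ[k] E) ((m t₀ g).app (x l) - (m t₀ g).app (x j)))) / pp.e t₀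

end Pool.Agent.Q41.SU
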