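import Pool.Agent.Q41.SU.Defs
import Pool.Agent.W277.UH.L9

/-!
# Statements, part 4: local dynamics
-/

namespace Pool.Agent.Q41.SU

open Finset Polynomial
open Pool.Agent.W277.UH (q₀ wd vm gmK)

universe u

/-- (L1) **Vector form of the local theorem, energies of subsets.** Proof: the proof of
`Pool.Agent.W277.UH.local_vec` (file `W277/UH/L9.lean`); in the clause on the energy replace the sums
over `P` by sums over a subset `Y` of `P` (`energy` is applied to the family of the points of `Y`;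
`hiter`, `hAb` are used as they are). -/
def S_lv : Prop :=
  ∀ (Ω K : Type u) [NormedField Ω] [IsUltrametricDist Ω] [IsAlgClosed Ω] [Field K] [DecidableEq K]
    (ι : K →+* Ω) (ord : K → ℤ) (_ : ∀ x : K, x ≠ 0 → ‖ι x‖ = Real.exp (-(ord x : ℝ)))
    (_ : ∀ n : ℕ, n ≠ 0 → ‖(n : Ω)‖ = 1) (d : ℕ) (_ : 2 ≤ d) (p q : K[X])
    (_ : p.natDegree ≤ d) (_ : q.natDegree = d) (_ : IsCoprime p q) (P : Finset K)
    (_ : Stab p q P) (a : K → ℝ)
    (_ : ∀ z ∈ P, (d : ℝ) * a z = ord (q.eval z) + a (p.eval z / q.eval z)),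
    ∃ (U V : K × K) (s : K) (R : ℕ) (t : K → K) (X : K → K × K) (A : K → ℝ),
      wd U V ≠ 0 ∧ s ≠ 0 ∧
      (R : ℝ) / (d * ((d : ℝ) - 1)) = (ord (resultant q p d d) : ℝ) / (d * ((d : ℝ) - 1)) +
        ord (wd U V) + 2 * ord s / ((d : ℝ) - 1) ∧
      (∀ z, t z ≠ 0 ∧ ‖vm ι (X z)‖ = 1 ∧ t z • gmK U V (X z) = (z, 1) ∧
        A z = a z - ord (t z) + ord s / ((d : ℝ) - 1)) ∧
      (∀ z ∈ P, 0 ≤ A z ∧ A z ≤ R / ((d : ℝ) - 1)) ∧
      (∀ Y ⊆ P, ∀ n : ℕ, (d : ℝ) ^ (2 * n) ≤ Y.card →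
        -(4 * (Y.card : ℝ) ^ 2 * R / (d : ℝ) ^ n) ≤
        ∑ z ∈ Y, ∑ z' ∈ Y, if z = z' then 0 else
          (-Real.log ‖wd (vm ι (X z)) (vm ι (X z'))‖ - A z - A z' +
            (R : ℝ) / (d * ((d : ℝ) - 1)))) ∧
      (1 ≤ R → ∃ χ : K → Fin (q₀ d), ∀ z ∈ P, ∀ z' ∈ P, z ≠ z' → χ z = χ z' →
        (R : ℝ) / (8 * d * (d + 1)) ≤ -Real.log ‖wd (vm ι (X z)) (vm ι (X z'))‖ - 2 * A z +
          (R : ℝ) / (d * ((d : ℝ) - 1)))

/-- (L2) **Rescaling the norm.** Proof. `‖x‖ ^ c` is again an ultrametric multiplicative norm; put it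
on a type synonym of `Ω` (for instance a one-field structure, or `NormedField.ofAbsoluteValue`-like
constructions with `WithAbs`). -/
def S_resc : Prop :=
  ∀ (Ω : Type u) [NormedField Ω] [IsUltrametricDist Ω] [IsAlgClosed Ω] (c : ℝ), 0 < c →
    ∃ (Ω' : Type u) (_ : NormedField Ω') (_ : IsUltrametricDist Ω') (_ : IsAlgClosed Ω')
      (f : Ω ≃+* Ω'), ∀ x, ‖f x‖ = ‖x‖ ^ c

/-- the new contact orders: `h` is the level of a cluster around `l₀` which is blown up -/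
def blow {J : Type*} [DecidableEq J] (o : J → J → ℤ) (h : ℕ) (l₀ : J) (l m : J) : ℤ :=
  o l m + h - (if l = l₀ then (h : ℤ) else min (h : ℤ) (o l l₀)) -
    (if m = l₀ then (h : ℤ) else min (h : ℤ) (o m l₀))

/-- (L3) **The centroid.** `κ = 1 / (8 d (d + 1))`, `q = q₀ d`, `h₀ = R / (d (d - 1))`,
`N = |J|`. Take `c' = κ / 16`, `θ = κ / 112`, `η = κ θ² / (4 q)`, `N₁ ≥ 8`, `N₁ ≥ 2 q / θ`. Choice of
`h`, `l₀`: if all the classes of level `1` (`{m | m = l ∨ 1 ≤ o l m}`) have at most `N / 2` elements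
take `h = 0`, any `l₀`; otherwise let `h ≥ 1` be the largest level at which some class
`C = {m | m = l₀ ∨ h ≤ o l₀ m}` has more than `N / 2` elements (it exists: `o` is bounded on the
finite set of pairs). Write `o' = blow o h l₀`, `τ_l = min(h, o(l, l₀))`, `τ_{l₀} = h`. Classes of `o'`:
for `l, m` in `C`, `o' = o - h` is positive iff `o ≥ h + 1`, and the classes of level `h + 1` have at
most `N / 2` elements; for `l` in `C`, `m` not in `C`, `o' = 0`; and there are less than `N / 2` rows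
outside `C`. Nonnegativity: `o' ≥ 0` by the ultrametric inequality. Now let `R ≥ 1`,
`G = ∑_{l ≠ m} (o - A_l - A_m + h₀) ≤ c' N² R` and suppose `S' = ∑_{l ≠ m} o' < η N² R`. (1)
`h ≤ 24 R`: otherwise `G ≥ |C| (|C| - 1) h - 2 (N - 1) ∑ A_l ≥ N² h / 8 - 2 N² R ≥ N² R`. (2) With
`w_l = A_l - τ_l + (h - h₀) / 2` one has `o' = (o - A_l - A_m + h₀) + w_l + w_m` for `l ≠ m`. Let
`T = {l | w_l > -κ R / 4}`. For `l ≠ m` in `T` with the same colour the average of the two colour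
inequalities gives `o - A_l - A_m + h₀ ≥ κ R`, so `o' ≥ κ R / 2`. There are at least
`|T|² / q - |T|` such ordered pairs, so `|T| ≥ θ N` would give `S' ≥ κ R θ² N² / (4 q)`; hence
`|T| < θ N`. (3) `w_l ≤ R + h / 2 ≤ 13 R`, so `∑ w_l ≤ -κ R N / 4 + 14 θ N R = -κ N R / 8`. (4)
`G = S' - 2 (N - 1) ∑ w_l ≥ κ N² R / 8 > c' N² R`, a contradiction. -/
def S_e2 : Prop :=
  ∀ d : ℕ, 2 ≤ d → ∃ (N₁ : ℕ) (c' η : ℝ), 0 < c' ∧ c' ≤ 1 ∧ 0 < η ∧
    ∀ (J : Type) [Fintype J] [DecidableEq J] (o : J → J → ℤ) (_ : ∀ l m, o l m = o m l)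
    (_ : ∀ l m, l ≠ m → 0 ≤ o l m)
    (_ : ∀ l m n, l ≠ m → m ≠ n → l ≠ n → min (o l m) (o m n) ≤ o l n) (A : J → ℝ) (R : ℕ)
    (_ : ∀ l, 0 ≤ A l ∧ A l ≤ R / ((d : ℝ) - 1)) (χ : J → Fin (q₀ d))
    (_ : 1 ≤ R → ∀ l m, l ≠ m → χ l = χ m → (R : ℝ) / (8 * d * (d + 1)) ≤
      o l m - 2 * A l + (R : ℝ) / (d * ((d : ℝ) - 1))) (_ : N₁ ≤ Fintype.card J),
    ∃ (h : ℕ) (l₀ : J), (∀ l m, l ≠ m → 0 ≤ blow o h l₀ l m) ∧
      (∀ l, 2 * cnt (blow o h l₀) 1 l ≤ Fintype.card J) ∧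
      (1 ≤ R → ∑ l, ∑ m ∈ univ.erase l, ((o l m : ℝ) - A l - A m + R / (d * ((d : ℝ) - 1))) ≤
        c' * (Fintype.card J : ℝ) ^ 2 * R →
        η * (Fintype.card J : ℝ) ^ 2 * R ≤ ∑ l, ∑ m ∈ univ.erase l, (blow o h l₀ l m : ℝ))

/-- the pair function at a place -/
noncomputable def gg {K : Type*} [Field K] (u : K → ℤ) (a : K → ℝ) (d : ℕ) (p q : K[X])
    (z z' : K) : ℝ :=
  (u (z - z') : ℝ) - a z - a z' + u (resultant q p d d) / (d * ((d : ℝ) - 1))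

/-- (L4) **The local theorem.** Constants `N₁`, `c'`, `η` as in (L3). Proof. Rescale the norm of `Ω` by
(L2) with `c = e`; then `‖f (j x)‖ = exp (-u x)` and (L1) applies with `ι = f ∘ j`, `ord = u` (the
natural numbers are constants of `k`, of norm `1`). For `z ≠ z'`,
`-log ‖wd (X z) (X z')‖ = u (wd (X z) (X z'))` and, by the relation `t z • gmK U V (X z) = (z, 1)` and
the formula for `R`, `-log ‖wd (X z) (X z')‖ - A z - A z' + R / (d (d - 1)) = gg z z'` (see the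
computations in `W277/UH/L10.lean`). This gives the first clause. Coordinates: choose `c` in `k` such
that `‖X₁(z) - c X₂(z)‖ = 1` for the finitely many `z` under consideration (for each `z` at most one
`c` is excluded, as the vectors `X z` have norm `1` and constants differ by units); the map
`z ↦ X₂(z) / (X₁(z) - c X₂(z))` is a Moebius map `m₀` over `K` (`X z` is proportional to
`giK U V (z, 1)`), it is integral at `j`, and
`u (m₀ z - m₀ z') = u (wd (X z) (X z')) =: o z z'`. If `R = 0` then `A = 0` on `P` and `o = gg`: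
second clause. Third clause: apply (L3) to `o (x l) (x m)`, the `A (x l)` and the colours, get `h`,
`l₀`; with `π` of value `1`, `w_l = (m₀ x_l - m₀ x_{l₀}) / π ^ h` and `c` in `k` different from the
residues of the integral ones among the `w_l`, take the Moebius map `1 / (w - c)` composed with
`m₀`; then `u (w_l - c) = τ_l - h` and the contact orders are `blow o h l₀`. -/
def S_loc : Prop :=
  ∀ d : ℕ, 2 ≤ d → ∃ (N₁ : ℕ) (c' η : ℝ), 0 < c' ∧ c' ≤ 1 ∧ 0 < η ∧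
    ∀ (k K Ω : Type u) [Field k] [CharZero k] [IsAlgClosed k] [Field K] [Algebra k K]
    [NormedField Ω] [IsUltrametricDist Ω] [IsAlgClosed Ω] [Algebra k Ω]
    (_ : ∀ c : k, c ≠ 0 → ‖algebraMap k Ω c‖ = 1) (j : K →ₐ[k] Ω) (e : ℕ) (u : K → ℤ)
    (_ : IsPl k j e u) (p q : K[X]) (_ : p.natDegree ≤ d) (_ : q.natDegree = d)
    (_ : IsCoprime p q) (P : Finset K) (_ : Stab p q P) (a : K → ℝ)
    (_ : ∀ z ∈ P, (d : ℝ) * a z = u (q.eval z) + a (p.eval z / q.eval z)),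
    ∃ R : ℕ,
      (∀ (J : Type) [Fintype J] [DecidableEq J] (x : J → K), Function.Injective x →
        (∀ l, x l ∈ P) → ∀ n : ℕ, (d : ℝ) ^ (2 * n) ≤ Fintype.card J →
        -(4 * (Fintype.card J : ℝ) ^ 2 * R / (d : ℝ) ^ n) ≤
          ∑ l, ∑ m ∈ univ.erase l, gg u a d p q (x l) (x m)) ∧
      (R = 0 → ∃ m : Mb K, m.det ≠ 0 ∧ (∀ z ∈ P, m.den z ≠ 0 ∧ ‖j (m.app z)‖ ≤ 1) ∧
        ∀ z ∈ P, ∀ z' ∈ P, z ≠ z' → (u (m.app z - m.app z') : ℝ) = gg u a d p q z z') ∧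
      ∀ (J : Type) [Fintype J] [DecidableEq J] (x : J → K), Function.Injective x →
        (∀ l, x l ∈ P) → N₁ ≤ Fintype.card J →
        ∃ m : Mb K, m.det ≠ 0 ∧ (∀ l, m.den (x l) ≠ 0 ∧ ‖j (m.app (x l))‖ ≤ 1) ∧
          (∀ l, 2 * cnt (fun l l' => u (m.app (x l) - m.app (x l'))) 1 l ≤ Fintype.card J) ∧
          (1 ≤ R → ∑ l, ∑ l' ∈ univ.erase l, gg u a d p q (x l) (x l') ≤
            c' * (Fintype.card J : ℝ) ^ 2 * R →
            η * (Fintype.card J : ℝ) ^ 2 * R ≤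
              ∑ l, ∑ l' ∈ univ.erase l, (u (m.app (x l) - m.app (x l')) : ℝ))

end Pool.Agent.Q41.SU
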