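import Pool.Agent.Q41.SU.Defs2

/-!
# Statements, part 5: nondegeneracy
-/

namespace Pool.Agent.Q41.SU

open Finset Polynomial
open Pool.Agent.W277.UH (ConjConst)

universe u

/-- (N1) **Reduction to an almost surjective stable set.** Proof. The sets `f^n(P)` decrease to the
set `P₀` of periodic points, on which `f` is surjective; take `P' = P₀` if it has at least `N'`
elements. Otherwise every point of `P` has at most `d` preimages, so if no point `z` has
`f^N'(z)` outside `P₀` then `|P| ≤ N' (1 + d + … + d ^ N')`. So for large `P` there is `z` with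
`z, f z, …, f^N' z` not periodic, hence all different (also different from all later points of the
orbit); take for `P'` the forward orbit of `z`; only `z` can fail to be an image. -/
def S_red : Prop :=
  ∀ d N' : ℕ, 1 ≤ d → ∃ N'' : ℕ, ∀ (E : Type u) [Field E] (p q : E[X]), p.natDegree ≤ d →
    q.natDegree = d → IsCoprime p q → ∀ P : Finset E, Stab p q P → N'' ≤ P.card →
    ∃ P' ⊆ P, Stab p q P' ∧ N' ≤ P'.card ∧ Sur p q P'

/-- (N2) **Iterates.** Proof. Induction on `n`. Coprimality: if a prime `π` divides `hcm d p u v` and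
`hcm d q u v` with `u`, `v` coprime then `π` does not divide `v` (otherwise it divides
`q.coeff d * u ^ d`, where `q.coeff d ≠ 0`), and in the field `E[X] / π` the element `u / v` would be
a common root of `p` and `q`. Degrees: `max` of the degrees is `d ^ n`: bounds are clear, and in the
step the coefficients of degree `d ^ (n + 1)` are the values of the forms of `p`, `q` at the vector
of the coefficients of degree `d ^ n` of `u`, `v`, which is not zero, and the forms have no common
zero. -/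
def S_it : Prop :=
  ∀ (E : Type u) [Field E] (d : ℕ) (p q : E[X]), 1 ≤ d → p.natDegree ≤ d → q.natDegree = d →
    IsCoprime p q → ∀ n : ℕ,
    IsCoprime (itr d p q n).1 (itr d p q n).2 ∧ (itr d p q n).2 ≠ 0 ∧
    max (itr d p q n).1.natDegree (itr d p q n).2.natDegree = d ^ n ∧
    (∀ m, rf (itr d p q (n + m)).1 (itr d p q (n + m)).2 =
      aeval (rf (itr d p q n).1 (itr d p q n).2) (itr d p q m).1 /
        aeval (rf (itr d p q n).1 (itr d p q n).2) (itr d p q m).2) ∧
    ∀ P : Finset E, Stab p q P → Stab (itr d p q n).1 (itr d p q n).2 P ∧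
      ∀ z ∈ P, (itr d p q n).1.eval z / (itr d p q n).2.eval z =
        (fun y => p.eval y / q.eval y)^[n] z

/-- (N3) **Pull-backs.** Proof. The formula for the value at `(x, D x)`: with `φ = P / Q` the `n`-th
iterate, `D (φ x) = (vd(x) + wr(x) D x) / Q(x) ^ 2` (product and quotient rule; `D (A(x)) =
A^D(x) + A'(x) D x` for polynomials `A`), and `hcm H A P Q` at `x` is `Q(x) ^ H A(φ x)`. Leading
coefficient: the coefficient of `Z ^ β` is `hcm H (G.coeff β) P Q * wr ^ β`; both factors are not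
zero: `P / Q` is not constant and the characteristic is zero. -/
def S_pb : Prop :=
  ∀ (k E : Type u) [Field k] [Field E] [CharZero E] [Algebra k E] (D : Derivation k E E) (d : ℕ)
    (p q : E[X]), 1 ≤ d → p.natDegree ≤ d → q.natDegree = d → IsCoprime p q → ∀ β H n : ℕ,
    ∀ G : E[X][X], G.natDegree ≤ β → (∀ i, (G.coeff i).natDegree ≤ H) →
    (pb D d p q β H n G).natDegree ≤ β ∧
    (∀ i, ((pb D d p q β H n G).coeff i).natDegree ≤ (H + 2 * β) * d ^ n) ∧
    (G.coeff β ≠ 0 → (pb D d p q β H n G).coeff β ≠ 0) ∧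
    ∀ P : Finset E, Stab p q P → ∀ x ∈ P, (pb D d p q β H n G).evalEval x (D x) =
      (itr d p q n).2.eval x ^ (H + 2 * β) *
        G.evalEval ((fun y => p.eval y / q.eval y)^[n] x)
          (D ((fun y => p.eval y / q.eval y)^[n] x))

/-- (N4) **Proportional pull-backs.** Proof. In `RatFunc E` let `σ_n` be the `E`-algebra endomorphism
`Y ↦ φ_n` (`φ_n = P_n / Q_n` the `n`-th iterate), `v_n = vd / Q_n ^ 2`, `w_n = wr / Q_n ^ 2`. Chain
rules: `φ_{n+m} = σ_n φ_m`, `w_{n+m} = σ_n(w_m) w_n`, `v_{n+m} = σ_n(v_m) + σ_n(w_m) v_n`. Let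
`g = G / G.coeff β = Z ^ β + …`, a monic polynomial in `Z` over `RatFunc E`, and
`𝒜_n g = g^{σ_n}(v_n + w_n Z)`, so that `𝒜_{n+m} = 𝒜_n ∘ 𝒜_m`; `𝒜_n g` is proportional to
`pb … n G`, and `𝒜_n g / w_n ^ β` is monic. The hypothesis gives
`𝒜_i g / w_i ^ β = 𝒜_{i+m} g / w_{i+m} ^ β = 𝒜_i (𝒜_m g / w_m ^ β) / w_i ^ β`; `𝒜_i` is injective, so
`𝒜_m g = w_m ^ β g`. Comparing the coefficients of `Z ^ (β - 1)`: with
`r = - coeff (β - 1) / β = R₁ / R₂` one gets `σ_m r = v_m + w_m r`. Hence
`𝒜_m (Z - r) = w_m (Z - r)`, and if `g = ∑ e_l (Z - r) ^ (β - l)` then `σ_m(e_l) = w_m ^ l e_l`. The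
coefficient is `e_l = T_l / (G.coeff β * R₂ ^ l)` with the polynomial
`T_l = ∑_i G.coeff i * binom(i, β - l) R₁ ^ (i - β + l) R₂ ^ (β - i)` (`β - l ≤ i ≤ β`). -/
def S_algr : Prop :=
  ∀ (k E : Type u) [Field k] [Field E] [CharZero E] [Algebra k E] (D : Derivation k E E) (d : ℕ)
    (p q : E[X]), 1 ≤ d → p.natDegree ≤ d → q.natDegree = d → IsCoprime p q → ∀ β H i m : ℕ,
    1 ≤ β → ∀ G : E[X][X], G.natDegree ≤ β → G.coeff β ≠ 0 → (∀ i, (G.coeff i).natDegree ≤ H) →
    C ((pb D d p q β H (i + m) G).coeff β) * pb D d p q β H i G =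
      C ((pb D d p q β H i G).coeff β) * pb D d p q β H (i + m) G →
    Ric D (itr d p q m).1 (itr d p q m).2 (-G.coeff (β - 1)) (C (β : E) * G.coeff β) ∧
    ∃ T : ℕ → E[X], (∀ l, (T l).natDegree ≤ H * (l + 1)) ∧
      (∀ l, 1 ≤ l → l ≤ β → Inv (itr d p q m).1 (itr d p q m).2 l (T l)
        (G.coeff β * (C (β : E) * G.coeff β) ^ l)) ∧
      ((∀ l, 1 ≤ l → l ≤ β → T l = 0) → C ((C (β : E) * G.coeff β) ^ β) * G =
        C (G.coeff β) * (C (C (β : E) * G.coeff β) * X - C (-G.coeff (β - 1))) ^ β)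

/-- (N5) **No invariant differentials.** Here `φ = p / q`, `e = A / B`. Proof. For a point `y` of `E`
with `φ(y)` in `E` let `e_y` be the multiplicity of `y` as a zero of `φ - φ(y)` and `ord_y` the order
of vanishing of a rational function. From `e ∘ φ = (φ') ^ l e`:
`e_y ord_{φ(y)} e = l (e_y - 1) + ord_y e` (characteristic zero), that is
`l - ord_y e = e_y (l - ord_{φ(y)} e)`. So `n(y) = l - ord_y e` is positive at all points of the
forward orbit of `x` (`n(x) = l ≥ 1`). This orbit is finite and stays in `P`, so it contains a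
periodic point `x₀`; replace `φ` by an iterate (`e ∘ φ^m = ((φ^m)') ^ l e` by the chain rule), so
that `φ(x₀) = x₀`; `n(x₀) = e_{x₀} n(x₀)` gives `e_{x₀} = 1`. In the variable `u = Y - x₀`:
`φ = x₀ + λ u + …`, `λ ≠ 0`, `e = c u ^ a (1 + …)` with `a = ord e < l`; leading coefficients:
`λ ^ a = λ ^ l`, so `λ` is a root of unity; replace `φ` by an iterate with `λ = 1`. Since `φ` has
degree at least `2`, `φ = x₀ + u + α u ^ (r + 1) + …` with `α ≠ 0`, `r ≥ 1`. Then
`e ∘ φ - e = c a α u ^ (a + r) + …` and `((φ') ^ l - 1) e = c l (r + 1) α u ^ (a + r) + …`, so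
`a = l (r + 1) > l`, a contradiction. -/
def S_inv : Prop :=
  ∀ (E : Type u) [Field E] [CharZero E] (p q : E[X]), IsCoprime p q → q ≠ 0 →
    2 ≤ max p.natDegree q.natDegree → ∀ P : Finset E, Stab p q P → ∀ x ∈ P, ∀ (l : ℕ), 1 ≤ l →
    ∀ A B : E[X], A.eval x ≠ 0 → B.eval x ≠ 0 → Inv p q l A B → False

/-- (N6) **Riccati.** Proof. Let `R₁ / R₂ = Q₁ / Q₂` in lowest terms, `m = max (deg Q₂, deg Q₁ - 2)`,
`h₂ = hcm m Q₂ p q`, `h₁ = hcm (m + 2) Q₁ p q` with formal degree: here `hcm` is used with `p`, `q` of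
formal degree `d = max (deg p, deg q) ≥ 2`. Multiplying by `q ^ (m + 2)` the relation becomes
`h₁ Q₂ = h₂ (vd Q₂ + wr Q₁)`. The forms of degrees `m + 2`, `m` defined by `Q₁`, `Q₂` have no common
zero (also not at infinity, by the choice of `m`), and `p`, `q` are coprime, so `h₁`, `h₂` are
coprime: `h₂ ∣ Q₂`, so `deg h₂ ≤ deg Q₂`. On the other hand `deg h₂ ≥ d m - m + deg Q₂`: this is clear
if `deg h₂ = d m`; otherwise the forms `h₂` has a zero at infinity and `h₁` not, so
`deg h₁ = d (m + 2)`, and comparing degrees (`deg vd ≤ 2 d`, `deg wr ≤ 2 d - 2`, `deg Q₁ ≤ m + 2`)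
`d (m + 2) + deg Q₂ ≤ deg h₂ + 2 d + m`. Hence `(d - 1) m ≤ 0`, `m = 0`: `Q₂` is constant and
`deg Q₁ ≤ 2`. -/
def S_ric : Prop :=
  ∀ (k E : Type u) [Field k] [Field E] [CharZero E] [Algebra k E] (D : Derivation k E E)
    (p q : E[X]), IsCoprime p q → q ≠ 0 → 2 ≤ max p.natDegree q.natDegree →
    ∀ R₁ R₂ : E[X], R₂ ≠ 0 → Ric D p q R₁ R₂ →
    ∃ α β γ : E, R₁ = (C α * X ^ 2 + C β * X + C γ) * R₂

/-- (N7) **Constant iterates.** If an iterate is conjugate to a map with constant coefficients and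
there is a large stable set then the map itself is. Proof. `m ≥ 1`. Let `M(z) = (a z + b) / (c z + e)`
conjugate the `m`-th iterate to `ψ = u / w` with coefficients in `k` (degree `d ^ m ≥ 2`). The points
`z` of `P` are preperiodic for the iterate, so the `M(z)` are preperiodic for `ψ`; a preperiodic
point of a map of degree at least `2` with coefficients in the algebraically closed field `k` is
algebraic over `k` (or infinite), so in `k ∪ {∞}`. So the cross ratios of the points of `P` are in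
`k`, and `Pool.Agent.W277.UH.conj_of_cross` (with `T = P`) applies. -/
def S_isoit : Prop :=
  ∀ (k E : Type u) [Field k] [IsAlgClosed k] [Field E] [Algebra k E] (d m : ℕ) (p q : E[X]),
    2 ≤ d → 1 ≤ m → p.natDegree ≤ d → q.natDegree = d → IsCoprime p q →
    ConjConst k (itr d p q m).1 (itr d p q m).2 (d ^ m) →
    ∀ P : Finset E, Stab p q P → 3 * d + 4 ≤ P.card → ConjConst k p q d

/-- (N8) **Nondegeneracy.** Proof by induction on `β`. If `β = 0`: `G` is a nonzero polynomial in `Y`
of degree at most `H`, so `N₀ ≥ H / ε`. Let `β ≥ 1`; if `G.coeff β = 0` use the case `β - 1`. Put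
`J = ⌈4 / ε⌉`, `ε' = 1 / J ^ 2`, `H' = 2 (H + 2 β) d ^ J`, let `|P|` be large. Suppose more than
`ε |P|` points satisfy `G(x, D x) = 0`; call this set `P_G`. By (N3) the set `P_n` of the `x` in `P`
with `(pb … n G)(x, D x) = 0` contains all `x` with `f^n(x)` in `P_G`, and since `f` is almost
surjective on `P`, `|P_n| ≥ |P_G| - n ≥ (ε / 2) |P|`, `n < J`. By inclusion-exclusion there are
`i < j < J` with `|P_i ∩ P_j| > ε' |P|`. The polynomial
`C (lc_j) * pb_i - C (lc_i) * pb_j` (`lc` the coefficient of `Z ^ β`) has degree less than `β` in `Z`,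
coefficients of degree at most `H'`, and vanishes at the points of `P_i ∩ P_j`; by the induction
hypothesis it is zero. So (N4) applies with `m = j - i`. If `T_l ≠ 0` for some `1 ≤ l ≤ β`, choose `x`
in `P` which is not a root of `T_l * G.coeff β * …`; (N5) for the `m`-th iterate (degree
`d ^ m ≥ 2`) gives a contradiction. So all `T_l = 0` and `G.coeff β` times a power of
`R₂ Z - R₁` is a multiple of `G`; so `R₂(x) D x = R₁(x)` for the points of `P_G` which are not roots
of `G.coeff β`. By (N6) `R₁ / R₂` is a polynomial `ρ = α Y ^ 2 + β Y + γ`. Let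
`Q' = {x ∈ P | D x = ρ(x)}`; it has at least `ε |P| - H` elements and is stable under the `m`-th
iterate `φ`: `D (φ x) = φ^D(x) + φ'(x) ρ(x) = ρ(φ(x))` by `Ric` (evaluate at `x`; `Q_m(x) ≠ 0`). The
cross ratios of the points of `Q'` have derivative zero (`Pool.Agent.W277.UH.cross_of_quad` has the
computation), so they are in `k`, and `Pool.Agent.W277.UH.conj_of_const` gives
`ConjConst k P_m Q_m (d ^ m)`; (N7) contradicts `hiso`. -/
def S_nd : Prop :=
  ∀ d β H : ℕ, ∀ ε : ℝ, 0 < ε → ∃ N₀ : ℕ, ∀ (k E : Type u) [Field k] [CharZero k]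
    [IsAlgClosed k] [Field E] [Algebra k E] (D : Derivation k E E) (p q : E[X]) (P : Finset E),
    NDH k D d p q P → N₀ ≤ P.card → ∀ G : E[X][X], G ≠ 0 → G.natDegree ≤ β →
    (∀ i, (G.coeff i).natDegree ≤ H) →
    ({x : E | x ∈ P ∧ G.evalEval x (D x) = 0}.ncard : ℝ) ≤ ε * P.card

/-- (N9) **Elimination.** `F` and the `c r` are polynomials in `(x, y)` (inner variable `x`, degree at
most `a`; outer variable `y`, degree at most `b`). Proof. Let `F = ∏ π_i` be the factorisation into
irreducible factors in the factorial ring `E[x, y]` (at most `a + b` factors which are not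
constant). Let `g = ∑ c_r Z ^ r`. If `π_i` divides all the `c_r`, the points with `π_i(x, y) = 0` are
excluded. Otherwise: if `π_i` does not contain `x`, put `ρ_i = π_i(y)`; if it does, `π_i` is
irreducible and primitive in `E[y][x]`, so irreducible over `E(y)` and over `E(y)(Z)`, and it does
not divide `g` (Gauss), so the resultant `ρ_i(y, Z)` of `π_i` and `g` with respect to `x` is not
zero; it vanishes at `(y, z)` if `π_i(x, y) = 0 = g(x, y, z)`, and its degrees are bounded in terms
of `a`, `b` (determinant of the Sylvester matrix). Let `ρ` be the product of the `ρ_i`. -/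
def S_elim : Prop :=
  ∀ a b : ℕ, ∃ β' H' : ℕ, ∀ (E : Type u) [Field E] (F : E[X][X]) (c : ℕ → E[X][X]), F ≠ 0 →
    F.natDegree ≤ b → (∀ i, (F.coeff i).natDegree ≤ a) → (∀ r, (c r).natDegree ≤ b) →
    (∀ r i, ((c r).coeff i).natDegree ≤ a) →
    ∃ ρ : E[X][X], ρ ≠ 0 ∧ ρ.natDegree ≤ β' ∧ (∀ i, (ρ.coeff i).natDegree ≤ H') ∧
      ∀ x y z : E, F.evalEval x y = 0 → (∃ r ≤ b, (c r).evalEval x y ≠ 0) →
        ∑ r ∈ range (b + 1), (c r).evalEval x y * z ^ r = 0 → ρ.evalEval y z = 0

/-- (N10) **Nondegeneracy with a parameter `δ`** (`δ` is the variable of the power series). Proof. Let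
`y = h x`, `F_j = ∑_i coeff_j(c i) X^{i₁} Y^{i₂}`, `F_j^{[r]} = (1 / r!) ∂_Y^r F_j`, and for `ω ≤ b` let
`c^ω_r = F_{ω-r}^{[r]}` for `r ≤ ω`, `0` for `r > ω`. `F_0 ≠ 0`. Except for at most `a` values of `x`,
`F_0(x, Y) ≠ 0` as a polynomial in `Y`, of degree at most `b`, so some `F_0^{[r]}(x, y) ≠ 0`, `r ≤ b`.
Let `ω ≤ b` be minimal such that some `c^ω_r(x, y) ≠ 0`. As
`∑ c_i x^{i₁} τ(y)^{i₂} = ∑_{j, r} δ^j F_j^{[r]}(x, y) (τ(y) - y) ^ r` and `τ(y) - y = δ (D y + δ …)`, the
coefficient of `δ ^ ω` of the sum is `∑_r c^ω_r(x, y) (D y) ^ r`, which is zero for the points under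
consideration; so `ω ≥ 1` and `F_0(x, y) = 0`. By (N9) `ρ_ω(y, D y) = 0` with a nonzero `ρ_ω` of
bounded degrees. As `(y, D y) = (h x, h (D x))`, the polynomial `h⁻¹ ρ_ω` vanishes at `(x, D x)`, and
(N8) with `ε / (2 b + 2)` bounds the number of these `x` for every `1 ≤ ω ≤ b`. -/
def S_nd2 : Prop :=
  ∀ d a b : ℕ, ∀ ε : ℝ, 0 < ε → ∃ N₀ : ℕ, ∀ (k E : Type u) [Field k] [CharZero k]
    [IsAlgClosed k] [Field E] [Algebra k E] (D : Derivation k E E) (p q : E[X]) (P : Finset E),
    NDH k D d p q P → N₀ ≤ P.card → ∀ h : E ≃ₐ[k] E, (∀ x, D (h x) = h (D x)) →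
    ∀ c : II a b → PowerSeries E, (∃ i, PowerSeries.constantCoeff (c i) ≠ 0) →
    ({x : E | x ∈ P ∧ (PowerSeries.X : PowerSeries E) ^ (b + 1) ∣
      ∑ i, c i * PowerSeries.C x ^ (i.1 : ℕ) * tay D (h x) ^ (i.2 : ℕ)}.ncard : ℝ) ≤ ε * P.card

/-- (N11) **Selection of a nondegenerate family.** Proof. Enumerate the `N = (a + 1) (b + 1)` rows.
Choose the points one after another such that after `l` points, for every `h` in `Γ`, some minor of
size `l` (some set of `l` columns) of the matrix with rows `x^{i₁} τ(h x)^{i₂}` is not divisible by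
`δ ^ (b l + 1)`. Step: for `h` let `T_h` be a set of columns whose minor has the least order
`m_h ≤ b l` among all minors of size `l` of the chosen rows, `c` a column outside `T_h`; the minor
of size `l + 1` with columns `T_h ∪ {c}` and new row `x` is `∑ ± minor * x^{i₁} τ(h x)^{i₂}`
(expansion along the new row), which is `δ ^ m_h` times an expression as in (N10), the coefficient of
the column `c` having nonzero constant term. By (N10) with `ε = 1 / (2 |Γ| + 2)` there is `x` in `P`
for which this expression is not divisible by `δ ^ (b + 1)` for all `h` in `Γ`. Finally the rows are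
different because the determinant is not zero (`Γ` is not empty; if it is empty add `1`). -/
def S_sel : Prop :=
  ∀ d a b ν : ℕ, ∃ N₀ : ℕ, ∀ (k E : Type u) [Field k] [CharZero k] [IsAlgClosed k] [Field E]
    [Algebra k E] (D : Derivation k E E) (p q : E[X]) (P : Finset E),
    NDH k D d p q P → N₀ ≤ P.card → ∀ Γ : Finset (E ≃ₐ[k] E), Γ.card ≤ ν →
    (∀ h ∈ Γ, ∀ x, D (h x) = h (D x)) →
    ∃ x : II a b → E, Function.Injective x ∧ (∀ l, x l ∈ P) ∧
      ∀ h ∈ Γ, ¬ (PowerSeries.X : PowerSeries E) ^ (b * ((a + 1) * (b + 1)) + 1) ∣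
        bd a b (fun l => PowerSeries.C (x l)) (fun l => tay D (h (x l)))

end Pool.Agent.Q41.SU
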