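import Pool.Agent.Q41.SU.Stm1
import Pool.Agent.Q41.SU.Stm2
import Pool.Agent.Q41.SU.Stm3
import Pool.Agent.Q41.SU.Stm4
import Pool.Agent.Q41.SU.Stm5

/-!
# Statements, part 6: the assembly
-/

namespace Pool.Agent.Q41.SU

open Finset Polynomial
open Pool.Agent.W277.UH (ConjConst)

universe u v

/-- (A1) **Local functions on a finite stable set.** Proof. `a z = ∑_j w (φ^j z) / d ^ (j + 1)`
(the values of `w` on `P` are bounded). Uniqueness: the maximum of `|a|` on `P` is at most its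
`d`-th part. -/
def S_af : Prop :=
  ∀ (A : Type u) (P : Finset A) (φ : A → A), (∀ z ∈ P, φ z ∈ P) → ∀ d : ℕ, 2 ≤ d →
    (∀ w : A → ℝ, ∃ a : A → ℝ, ∀ z ∈ P, (d : ℝ) * a z = w z + a (φ z)) ∧
    ∀ a : A → ℝ, (∀ z ∈ P, (d : ℝ) * a z = a (φ z)) → ∀ z ∈ P, a z = 0

/-- (A2) **The global sum of the pair functions.** Proof. Choose the `a t₀ g` by (A1) with
`w z = u t₀ (g (q z))`. The sum over `S₀` and `g` of `a t₀ g / e t₀` satisfies the homogeneous
relation by the product formula (F5) for `q z`, so it vanishes on `P`; the sums of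
`u t₀ (g (z - z')) / e t₀` and of `u t₀ (g res) / e t₀` vanish by the product formula. -/
def S_glob : Prop :=
  ∀ (k E Λ : Type u) [Field k] [IsAlgClosed k] [Field E] [Algebra k E] [NormedField Λ]
    [IsUltrametricDist Λ] [Algebra k Λ] (t : E) (s : Λ) (G : Subgroup (E ≃ₐ[k] E)) [Fintype G],
    IsAmb k Λ s → IsGal k t G → ∀ (pp : PlSys k E Λ t s) (S₀ : Finset k) (d : ℕ) (_ : 2 ≤ d)
    (p q : E[X]) (P : Finset E) (_ : Stab p q P) (_ : resultant q p d d ≠ 0)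
    (_ : pp.Unit G S₀ (resultant q p d d)) (_ : ∀ z ∈ P, pp.Unit G S₀ (q.eval z))
    (_ : ∀ z ∈ P, ∀ z' ∈ P, z ≠ z' → pp.Unit G S₀ (z - z')),
    ∃ a : k → G → E → ℝ,
      (∀ t₀ (g : G), ∀ z ∈ P, (d : ℝ) * a t₀ g z =
        pp.u t₀ ((g : E ≃ₐ[k] E) (q.eval z)) + a t₀ g (p.eval z / q.eval z)) ∧
      ∀ z ∈ P, ∀ z' ∈ P, z ≠ z' →
        ∑ t₀ ∈ S₀, ∑ g : G, gg (fun y => pp.u t₀ ((g : E ≃ₐ[k] E) y)) (a t₀ g) d p q z z' /
          pp.e t₀ = 0

/-- (A3) **Good reduction everywhere implies constant cross ratios.** Proof. All `gg ≥ 0` (values of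
integral elements), their sum is zero (clause `hsum`), so all are zero and
`u t₀ (g (m z - m z')) = 0` for `z ≠ z'`. The cross ratio `c` of four different points is the cross
ratio of their images under `m t₀ g`, so `‖ι t₀ (g c)‖ = 1` for `t₀` in `S₀`; outside `S₀` and at
infinity the differences are units, so `pp.Int G ∅ c` and (F6) gives `c ∈ k`. -/
def S_ni : Prop :=
  ∀ (k E Λ : Type u) [Field k] [IsAlgClosed k] [Field E] [Algebra k E] [NormedField Λ]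
    [IsUltrametricDist Λ] [Algebra k Λ] (t : E) (s : Λ) (G : Subgroup (E ≃ₐ[k] E)) [Fintype G],
    IsAmb k Λ s → IsGal k t G → ∀ (pp : PlSys k E Λ t s) (S₀ : Finset k) (P : Finset E)
    (_ : ∀ z ∈ P, ∀ z' ∈ P, z ≠ z' → pp.Unit G S₀ (z - z')) (γ : k → G → E → E → ℝ)
    (_ : ∀ z ∈ P, ∀ z' ∈ P, z ≠ z' → ∑ t₀ ∈ S₀, ∑ g : G, γ t₀ g z z' / pp.e t₀ = 0)
    (_ : ∀ t₀ ∈ S₀, ∀ g : G, ∃ m : Mb E, m.det ≠ 0 ∧ (∀ z ∈ P, m.den z ≠ 0 ∧
      ‖pp.ι t₀ ((g : E ≃ₐ[k] E) (m.app z))‖ ≤ 1) ∧ ∀ z ∈ P, ∀ z' ∈ P, z ≠ z' →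
      (pp.u t₀ ((g : E ≃ₐ[k] E) (m.app z - m.app z')) : ℝ) = γ t₀ g z z'),
    ∀ x0 ∈ P, ∀ x1 ∈ P, ∀ x2 ∈ P, ∀ x ∈ P, x0 ≠ x1 → x0 ≠ x2 → x1 ≠ x2 → x ≠ x2 → x ≠ x0 →
      ∃ c : k, algebraMap k E c = ((x - x0) * (x1 - x2)) / ((x - x2) * (x1 - x0))

/-- (A4) **Constant cross ratios.** `k` algebraically closed. Proof. Let `M(z) = (a z + b) / (c z + e)`
conjugate `p / q` to `u / w` with coefficients in `k`, of degree `d ≥ 2` (`u`, `w` coprime). The
points of `P` are preperiodic, so the `M(z)` are preperiodic for `u / w`, so they are roots of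
nonzero polynomials over `k` (or infinite; for preperiod `i < j` the iterates have different degrees
`d ^ i < d ^ j`), hence in `k ∪ {∞}`; cross ratios are invariant under `M`. -/
def S_crc : Prop :=
  ∀ (k E : Type u) [Field k] [IsAlgClosed k] [Field E] [Algebra k E] (d : ℕ) (p q : E[X]),
    2 ≤ d → p.natDegree ≤ d → q.natDegree ≤ d → max p.natDegree q.natDegree = d →
    IsCoprime p q → ConjConst k p q d → ∀ P : Finset E, Stab p q P →
    ∀ x0 ∈ P, ∀ x1 ∈ P, ∀ x2 ∈ P, ∀ x ∈ P, x0 ≠ x1 → x0 ≠ x2 → x1 ≠ x2 → x ≠ x2 → x ≠ x0 →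
      ∃ c : k, algebraMap k E c = ((x - x0) * (x1 - x2)) / ((x - x2) * (x1 - x0))

/-- (A5) **The numerical contradiction.** `T₀` is the set of places, `S` the bad ones, `Γ` the group,
`J` the rows (`N = |J| = (Θ b + 1) (b + 1)`), `En` the energies, `o` the contact orders, `R` the
resultants. Choose `Θ ≥ 800 ν! ν² / η`, `Θ ≥ 2`, `n` with `d ^ n ≥ 8 / c'` and
`d ^ n ≥ 6400 ν Θ / η`, then `b ≥ 100 Θ ν²`, `b ≥ 1000 / η`, with `N ≥ N₁`, `N ≥ d ^ (2 n)`. Proof. Let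
`ℰ = ∑_S ∑_Γ R / e` (so `ℰ ≥ |S| / ν!`, `ℰ > 0`). By `hzero`, `hlow`, and `En ≥ 0` at good places, the
sum of `En / e` over the places `(t, g)`, `t ∈ S`, with `En > c' N² R` is at most `4 N² ℰ / d ^ n`, so
these places carry at most half of `ℰ`; also `∑_{T₀ \ S} ∑ En / e ≤ 4 N² ℰ / d ^ n`. In `hmi` move the
terms of `S` to the left. At a place of `S` all the classes of level `i ≥ 1` have at most `N / 2`
elements (`cnt o i l ≤ cnt o 1 l`), and for `1 ≤ n ≤ N / 2`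
`gam (Θ b) b Θ n - Θ ν kap (Θ b) b n ≥ Θ (b / (48 N)) n (n - 1)` by (C10), (C11):
`kap n ≤ min (2 n, n (n - 1) / b)` (use `(a + b) / (2 (N - 1)) ≤ 1 / (2 (a + 1)) + 1 / (2 (b + 1))`,
`a = Θ b`), `phi 1 0 + Θ phi 0 1 ≤ n (n - 1) / b`, `Θ b / (48 N) ≤ 1 / (48 b)`. At a good place
`kap n ≤ n (n - 1) / b`. With (C12) (`LS (n (n - 1)) = ∑ o`):
`Θ (b / (48 N)) ∑_S ∑ (∑ o) / e ≤ |S| (ν² b N + 1 + Θ) + (Θ ν / b) (4 N² ℰ / d ^ n)`, and the left
side is at least `Θ (b / (48 N)) η N² ℰ / 2`. Divide by `ℰ Θ b N`: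
`η / 96 ≤ ν! (ν² b N + 1 + Θ) / (Θ b N) + 4 ν N / (b² d ^ n) ≤ 2 ν! ν² / Θ + 16 ν Θ / d ^ n`
`≤ η / 400 + η / 400`, a contradiction (`Θ b² ≤ N ≤ 4 Θ b²`). -/
def S_numcore : Prop :=
  ∀ (d ν N₁ : ℕ) (c' η : ℝ), 2 ≤ d → 1 ≤ ν → 0 < c' → c' ≤ 1 → 0 < η → ∃ Θ b n : ℕ, 2 ≤ Θ ∧
    1 ≤ b ∧ N₁ ≤ (Θ * b + 1) * (b + 1) ∧ d ^ (2 * n) ≤ (Θ * b + 1) * (b + 1) ∧
    ∀ (A : Type u) (T₀ S : Finset A) (_ : S ⊆ T₀) (_ : S.Nonempty) (Γ : Type u) [Fintype Γ]
      (_ : Fintype.card Γ = ν) (e : A → ℕ) (_ : ∀ t ∈ T₀, 1 ≤ e t ∧ e t ≤ ν.factorial)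
      (R : A → Γ → ℕ) (En : A → Γ → ℝ) (M : ℕ) (o : A → Γ → II (Θ * b) b → II (Θ * b) b → ℤ)
      (_ : ∀ t ∈ T₀, ∀ g l l', l ≠ l' → 0 ≤ o t g l l' ∧ o t g l l' ≤ M)
      (_ : ∑ t ∈ T₀, ∑ g, En t g / e t = 0)
      (_ : ∀ t ∈ T₀, ∀ g, -(4 * (((Θ * b + 1) * (b + 1) : ℕ) : ℝ) ^ 2 * R t g / (d : ℝ) ^ n) ≤
        En t g)
      (_ : ∀ t ∈ T₀, t ∉ S → ∀ g, En t g = ∑ l, ∑ l' ∈ univ.erase l, (o t g l l' : ℝ))
      (_ : ∀ t ∈ S, ∃ g, 1 ≤ R t g)
      (_ : ∀ t ∈ S, ∀ g l, 2 * cnt (o t g) 1 l ≤ (Θ * b + 1) * (b + 1))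
      (_ : ∀ t ∈ S, ∀ g, 1 ≤ R t g →
        En t g ≤ c' * (((Θ * b + 1) * (b + 1) : ℕ) : ℝ) ^ 2 * R t g →
        η * (((Θ * b + 1) * (b + 1) : ℕ) : ℝ) ^ 2 * R t g ≤
          ∑ l, ∑ l' ∈ univ.erase l, (o t g l l' : ℝ))
      (_ : ∑ t ∈ S, ∑ g, LS (gam (Θ * b) b Θ) M (o t g) / e t ≤
        (S.card : ℝ) * ((ν : ℝ) ^ 2 * (b * ((Θ * b + 1) * (b + 1)) : ℕ) + 1 + Θ) +
          Θ * ν * ∑ t ∈ T₀, ∑ g, LS (kap (Θ * b) b) M (o t g) / e t), False

/-- (A6) **The theorem over an algebraically closed field of constants, for a Galois extension.**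
Proof. Let `ν = |G|` (take the maximum over `ν ≤ n` of the bounds). Let `c'`, `η`, `N₁` be from (L4),
`Θ`, `b`, `n` from (A5), `a = Θ b`. Suppose the conclusion fails for `P`, large. By (N1) pass to a
subset, still called `P`, with `Sur p q P`. Let `D` be the derivation of (F8), (F9) its Taylor
homomorphism. (N11) for `Γ = G` gives `x`. (The nondegeneracy theorems do not mention `t`; but `D`
and `τ` depend on `t`, so choose first the coordinate.) Coordinate: let `Y` be the finite set of the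
nonzero elements among `z`, `z - z'`, `q z`, `resultant q p d d` (`z`, `z'` in `P`); by (F1), (F2),
(F4) there is `t₁` in `k` such that all embeddings with `t ↦ t₁ + s` give norm `1` to the elements of
`Y` and of their conjugates; replace `t` by `(t - t₁)⁻¹` (F7); then every embedding with
`t ↦ s⁻¹` gives norm `1` to them. Choose `pp` by (F2), (F3), with `e ≤ ν!`, and `S₀` by (F4) so that
the elements of `Y` are units outside `S₀`. (A2) gives `a t₀ g` with vanishing global sums. (L4) for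
`j = ι t₀ ∘ g`, `u = u t₀ ∘ g` gives `R t₀ g`. Let `S` be the set of the `t₀` in `S₀` with some
`R t₀ g ≥ 1`; it is not empty by (A3) and `conj_of_cross`. Take the Moebius maps of the second
clause of (L4) at the places outside `S`, of the third clause at the places of `S`; (T8) with
`c = b N` and (A5) give the contradiction. -/
def S_core : Prop :=
  ∀ d n : ℕ, 2 ≤ d → ∃ B : ℕ, ∀ (k E : Type u) [Field k] [CharZero k] [IsAlgClosed k] [Field E]
    [Algebra k E] (t : E) (G : Subgroup (E ≃ₐ[k] E)) [Fintype G], IsGal k t G →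
    Fintype.card G ≤ n → ∀ p q : E[X], p.natDegree ≤ d → q.natDegree = d → IsCoprime p q →
    ∀ P : Finset E, Stab p q P → ¬ ConjConst k p q d → P.card ≤ B

/-- (A7) **The Galois closure over the algebraic closure of the constants.** Proof. Let `Ω` be an
algebraic closure of `L`, `k'` the algebraic closure of `k` in `Ω` (`algebraicClosure k Ω`), and `E` the
normal closure over `k'(t)` of the compositum of `L` and `k'` in `Ω` (generated over `k'(t)` by the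
images of `L` under the `k(t)`-embeddings `L → Ω`; characteristic zero, `L = k(t)(θ)`, the minimal
polynomial of `θ` has degree at most `n`, and `E` is the splitting field of this polynomial over
`k'(t)`, so `[E : k'(t)] ≤ n!`). `G` is the group of the `k'`-automorphisms of `E` which fix `t`; it is
the Galois group of `E / k'(t)`. The last clause: an element of `L` which lies in `k'` is algebraic
over `k`. -/
def S_ext : Prop :=
  ∀ (k : Type v) (L : Type u) [Field k] [CharZero k] [Field L] [Algebra k L] (t : L),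
    Transcendental k t → FiniteDimensional (IntermediateField.adjoin k {t}) L → ∀ n : ℕ,
    Module.finrank (IntermediateField.adjoin k {t}) L ≤ n →
    ∃ (k' E : Type u) (_ : Field k') (_ : CharZero k') (_ : IsAlgClosed k') (_ : Field E)
      (_ : Algebra k' E) (j : L →+* E) (t' : E) (G : Subgroup (E ≃ₐ[k'] E)) (_ : Fintype G),
      IsGal k' t' G ∧ Fintype.card G ≤ n.factorial ∧
      ∀ x : L, (∃ c : k', algebraMap k' E c = j x) → IsAlgebraic k x

end Pool.Agent.Q41.SU
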