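import Pool.Agent.Q41.SU.Defs

/-!
# Statements, part 1: places
-/

namespace Pool.Agent.Q41.SU

open Finset Polynomial

universe u

/-- (F1) **The ambient field.** Proof. On `RatFunc k` take the absolute value `|x| = exp (-ord x)`,
`ord` the order of vanishing at `0`. It is nonarchimedean and trivial on `k`. For `c ≠ 0`, `Θ ≥ 1`
the `k`-endomorphism `Φ₀` of `RatFunc k` with `X ↦ c X ^ Θ` satisfies `|Φ₀ x| = |x| ^ Θ`. Let `𝔽` be
the completion (as in `Pool.Agent.W277.UG.exists_ext`, file `W277/UG/A1.lean`, which does the same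
for a place of a function field) and `Λ = AlgebraicClosure 𝔽` with the spectral norm. `Φ₀` is
uniformly continuous and extends to a ring endomorphism `Φ₁` of `𝔽` with `‖Φ₁ x‖ = ‖x‖ ^ Θ`
(`UniformSpace.Completion.mapRingHom`, density); as `Λ` is algebraically closed and algebraic over
`𝔽` there is `Φ : Λ → Λ` extending `Φ₁` (`IsAlgClosed.lift` for `Λ` with the algebra structure of
`𝔽 → 𝔽 → Λ`). The function `x ↦ ‖Φ x‖ ^ (1 / Θ)` is a multiplicative nonarchimedean norm on `Λ`
which extends the norm of `𝔽`, so it is the spectral norm by uniqueness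
(`spectralNorm_unique_field_norm_ext`). -/
def S_amb : Prop :=
  ∀ (k : Type u) [Field k], ∃ (Λ : Type u) (_ : NormedField Λ) (_ : IsUltrametricDist Λ)
    (_ : IsAlgClosed Λ) (_ : Algebra k Λ) (s : Λ), IsAmb k Λ s

/-- (F2) **Embeddings.** Proof. Every `x` in `E` is algebraic over `k(t)`: the product of `Y - g x`
over `g` in `G` has coefficients fixed by `G`, so in `k(t)` by `IsGal.rat`. Since `s` is
transcendental over `k` (a nonzero polynomial in `s` with constant coefficients has norm
`exp (-order)`), so are `t₀ + s` and `s⁻¹`, so there are `k`-embeddings of `k(t)`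
(`IntermediateField.adjoin k {t}`) into `Λ` with `t ↦ t₀ + s`, resp. `s⁻¹`, and they extend to `E`
because `Λ` is algebraically closed (`IsAlgClosed.lift`, or
`IntermediateField.exists_algHom_of_splits`). -/
def S_emb : Prop :=
  ∀ (k E Λ : Type u) [Field k] [Field E] [Algebra k E] [NormedField Λ] [IsUltrametricDist Λ]
    [IsAlgClosed Λ] [Algebra k Λ] (t : E) (s : Λ) (G : Subgroup (E ≃ₐ[k] E)) [Fintype G],
    IsAmb k Λ s → IsGal k t G →
    (∀ t₀ : k, ∃ ι : E →ₐ[k] Λ, ι t = algebraMap k Λ t₀ + s) ∧ ∃ ι : E →ₐ[k] Λ, ι t = s⁻¹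

/-- (F3) **Places.** Proof. Let `ι t = t₀ + s`. Every `x` in `E` is a root of a nonzero polynomial
`∑ a_i(t) Y ^ i`, `a_i` in `k[X]`, of degree at most `ν = |G|` (product of `Y - g x`, `IsGal.rat`).
For a nonzero polynomial `A` over `k`, `‖ι (A(t))‖ = exp (-m)` with `m` the multiplicity of the
root `t₀`. Values: two different terms of `∑ a_i(t) x ^ i = 0` have the same maximal norm, so
`‖ι x‖ ^ (i - j) = exp (m)` with an integer `m` and `1 ≤ i - j ≤ ν`, so `-log ‖ι x‖` is in
`(1 / ν!) ℤ`. Hence `{-log ‖ι x‖ | x ≠ 0}` is a subgroup of `(1 / ν!) ℤ` which contains `ℤ`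
(`x = t - t₀`), so it is `(1 / e) ℤ` with `e` dividing `ν!`. Put `u x = - e log ‖ι x‖`. Digits: let
`‖ι x‖ ≤ 1`; divide the polynomial by a power of `t - t₀` so that not all `a_i(t₀)` are zero. Then
`‖∑ a_i(t₀) (ι x) ^ i‖ < 1`; the polynomial `∑ a_i(t₀) Y ^ i` over the algebraically closed field
`k` is a nonzero constant times a product of `Y - c_j` (and not constant), so `‖ι x - c_j‖ < 1` for
some `j`. -/
def S_pl : Prop :=
  ∀ (k E Λ : Type u) [Field k] [IsAlgClosed k] [Field E] [Algebra k E] [NormedField Λ]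
    [IsUltrametricDist Λ] [Algebra k Λ] (t : E) (s : Λ) (G : Subgroup (E ≃ₐ[k] E)) [Fintype G],
    IsAmb k Λ s → IsGal k t G → ∀ (t₀ : k) (ι : E →ₐ[k] Λ), ι t = algebraMap k Λ t₀ + s →
    ∃ (e : ℕ) (u : E → ℤ), e ≤ (Fintype.card G).factorial ∧ IsPl k ι e u

/-- (F4) **Finiteness of the support.** Proof. `y` and `y⁻¹` are roots of monic polynomials with
coefficients in `k(t)` (product of `Y - g y`, `IsGal.rat`); for all but finitely many `t₀` all these
coefficients have no pole at `t₀`, so their images under `ι` have norm at most `1`, and then a root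
has norm at most `1`. -/
def S_fin : Prop :=
  ∀ (k E Λ : Type u) [Field k] [Field E] [Algebra k E] [NormedField Λ] [IsUltrametricDist Λ]
    [Algebra k Λ] (t : E) (s : Λ) (G : Subgroup (E ≃ₐ[k] E)) [Fintype G],
    IsAmb k Λ s → IsGal k t G → ∀ y : E, y ≠ 0 →
    {t₀ : k | ∃ ι : E →ₐ[k] Λ, ι t = algebraMap k Λ t₀ + s ∧ ‖ι y‖ ≠ 1}.Finite

/-- (F5) **The product formula.** Proof. `N = ∏ g y` is fixed by `G`, so `N = r(t) / q(t)` by
`IsGal.rat`; `k` is algebraically closed, so `N` is a constant times a product of powers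
`(t - t₁) ^ m(t₁)`. Then `‖ι_{t₀} N‖ = exp (-m(t₀))` and `‖ι_∞ N‖ = exp (∑ m)`. Outside `S₀` one has
`m = 0`, at infinity `∑ m = 0`, and `m(t₀) = ∑_g u(g y) / e`. -/
def S_prod : Prop :=
  ∀ (k E Λ : Type u) [Field k] [IsAlgClosed k] [Field E] [Algebra k E] [NormedField Λ]
    [IsUltrametricDist Λ] [Algebra k Λ] (t : E) (s : Λ) (G : Subgroup (E ≃ₐ[k] E)) [Fintype G],
    IsAmb k Λ s → IsGal k t G → ∀ (pp : PlSys k E Λ t s) (S₀ : Finset k) (y : E), y ≠ 0 →
    pp.Unit G S₀ y →
    ∑ t₀ ∈ S₀, ∑ g : G, (pp.u t₀ ((g : E ≃ₐ[k] E) y) : ℝ) / pp.e t₀ = 0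

/-- (F6) **Integral elements are constant.** Proof. The coefficients of the product of `Y - g y`
are rational functions of `t` (`IsGal.rat`) which have no pole at any `t₀` and at infinity
(elementary symmetric functions of the `g y`, whose images have norm at most `1`), so they are
constants, `y` is algebraic over `k` and `k` is algebraically closed. -/
def S_const : Prop :=
  ∀ (k E Λ : Type u) [Field k] [IsAlgClosed k] [Field E] [Algebra k E] [NormedField Λ]
    [IsUltrametricDist Λ] [Algebra k Λ] (t : E) (s : Λ) (G : Subgroup (E ≃ₐ[k] E)) [Fintype G],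
    IsAmb k Λ s → IsGal k t G → ∀ (pp : PlSys k E Λ t s) (y : E),
    pp.Int G ∅ y → ∃ c : k, y = algebraMap k E c

/-- (F7) **Change of the coordinate `t`.** Proof. `1 / (t - t₁)` is transcendental, fixed by `G`,
and the rational functions of `t` are the rational functions of `1 / (t - t₁)`. -/
def S_coord : Prop :=
  ∀ (k E : Type u) [Field k] [Field E] [Algebra k E] (t : E) (G : Subgroup (E ≃ₐ[k] E)) (t₁ : k),
    IsGal k t G → IsGal k (t - algebraMap k E t₁)⁻¹ G

/-- (F8) **The derivation `d / dt`.** Proof. `E / k(t)` is finite separable (characteristic zero,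
every element is a root of the product of `Y - g x`; the degree is at most `|G|` by
`FixedPoints` / Artin, or use that all degrees are bounded), so `d / dt` extends uniquely from
`k(t)` to `E` (Mathlib: `Differential`, `Algebra.FormallyUnramified` / `FormallyEtale` for separable
algebraic extensions, or the seed files `W277/UB/Gen.lean`, `W277/UB/Rat.lean`). For `g` in `G` the
derivation `g⁻¹ ∘ D ∘ g` also extends `d / dt`, so it is `D`. If `D x = 0`, let `∑ a_i(t) Y ^ i` be
the minimal polynomial of `x` over `k(t)`, monic; applying `D` gives `∑ a_i'(t) x ^ i = 0`, a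
relation of smaller degree, so all `a_i' = 0`, all `a_i` are constant (characteristic zero), `x` is
algebraic over `k` and so in `k`. -/
def S_der : Prop :=
  ∀ (k E : Type u) [Field k] [CharZero k] [IsAlgClosed k] [Field E] [Algebra k E] (t : E)
    (G : Subgroup (E ≃ₐ[k] E)) [Fintype G], IsGal k t G →
    ∃ D : Derivation k E E, D t = 1 ∧ (∀ g ∈ G, ∀ x, D (g x) = g (D x)) ∧
      ∀ x, D x = 0 → ∃ c : k, x = algebraMap k E c

/-- (F9) **The Taylor homomorphism.** Proof. `D^n (x y) = ∑ binom(n, i) D^i x D^(n-i) y` gives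
multiplicativity; `D t = 1` and `D^n t = 0` for `n ≥ 2`. -/
def S_tay : Prop :=
  ∀ (k E : Type u) [Field k] [CharZero k] [Field E] [Algebra k E] (t : E) (D : Derivation k E E),
    D t = 1 → ∃ τ : E →ₐ[k] PowerSeries E, (∀ x, τ x = tay D x) ∧
      τ t = PowerSeries.C t + PowerSeries.X

end Pool.Agent.Q41.SU
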