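import Pool.Agent.Q41.SU.Defs
import Pool.Agent.W277.UH.I1

/-!
# Definitions, part 2: iterates, pull-backs, invariants
-/

namespace Pool.Agent.Q41.SU

open Finset Polynomial

universe u

variable {E : Type*} [Field E]

/-- the homogenisation of `A` (formal degree `d`) at the pair `(u, v)` -/
noncomputable def hcm (d : ℕ) (A u v : E[X]) : E[X] :=
  ∑ i ∈ range (d + 1), C (A.coeff i) * u ^ i * v ^ (d - i)

/-- numerator and denominator of the `n`-th iterate of `p / q`, of formal degree `d ^ n` -/
noncomputable def itr (d : ℕ) (p q : E[X]) : ℕ → E[X] × E[X]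
  | 0 => (X, 1)
  | n + 1 => (hcm d p (itr d p q n).1 (itr d p q n).2, hcm d q (itr d p q n).1 (itr d p q n).2)

/-- the Wronskian: `(p / q)' = wr p q / q ^ 2` -/
noncomputable def wr (p q : E[X]) : E[X] := derivative p * q - p * derivative q

/-- a derivation applied to the coefficients -/
noncomputable def cD {k : Type*} [Field k] [Algebra k E] (D : Derivation k E E) (p : E[X]) :
    E[X] :=
  ∑ i ∈ range (p.natDegree + 1), C (D (p.coeff i)) * X ^ i

/-- `(p / q)^D = vd D p q / q ^ 2`, where `^D` is the derivation applied to the coefficients -/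
noncomputable def vd {k : Type*} [Field k] [Algebra k E] (D : Derivation k E E) (p q : E[X]) :
    E[X] :=
  cD D p * q - p * cD D q

/-- the pull-back of `G(Y, Z)` (inner variable `Y`, outer variable `Z`; degree at most `β` in `Z`,
coefficients of degree at most `H` in `Y`) by the map
`(Y, Z) ↦ (φ(Y), φ^D(Y) + φ'(Y) Z)`, `φ` the `n`-th iterate of `p / q`, multiplied by the power
`H + 2 β` of the denominator of `φ` -/
noncomputable def pb {k : Type*} [Field k] [Algebra k E] (D : Derivation k E E) (d : ℕ)
    (p q : E[X]) (β H n : ℕ) (G : E[X][X]) : E[X][X] :=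
  ∑ i ∈ range (β + 1),
    C ((itr d p q n).2 ^ (2 * (β - i)) * hcm H (G.coeff i) (itr d p q n).1 (itr d p q n).2) *
      (C (vd D (itr d p q n).1 (itr d p q n).2) + C (wr (itr d p q n).1 (itr d p q n).2) * X) ^ i

/-- the rational function `P / Q` -/
noncomputable def rf (P Q : E[X]) : RatFunc E :=
  algebraMap E[X] (RatFunc E) P / algebraMap E[X] (RatFunc E) Q

/-- the rational function `A / B` satisfies `(A / B) ∘ φ = (φ') ^ l (A / B)`, with `φ = P / Q` -/
def Inv (P Q : E[X]) (l : ℕ) (A B : E[X]) : Prop :=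
  aeval (rf P Q) A * algebraMap E[X] (RatFunc E) B =
    rf (wr P Q) (Q ^ 2) ^ l * (algebraMap E[X] (RatFunc E) A * aeval (rf P Q) B)

/-- the rational function `r = R₁ / R₂` satisfies `r ∘ φ = φ^D + φ' r`, with `φ = P / Q` -/
def Ric {k : Type*} [Field k] [Algebra k E] (D : Derivation k E E) (P Q R₁ R₂ : E[X]) : Prop :=
  aeval (rf P Q) R₁ * algebraMap E[X] (RatFunc E) R₂ =
    (rf (vd D P Q) (Q ^ 2) * algebraMap E[X] (RatFunc E) R₂ +
      rf (wr P Q) (Q ^ 2) * algebraMap E[X] (RatFunc E) R₁) * aeval (rf P Q) R₂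

/-- all but at most one point of `P` are images of points of `P` -/
def Sur (p q : E[X]) (P : Finset E) : Prop :=
  {y : E | y ∈ P ∧ ∀ z ∈ P, p.eval z / q.eval z ≠ y}.ncard ≤ 1

/-- the hypotheses of the nondegeneracy theorems: `p / q` has degree `d ≥ 2`, is not isotrivial, and
`P` is a finite stable set on which the map is almost surjective; `D` is a derivation with field of
constants `k` -/
structure NDH (k : Type u) {E : Type u} [Field k] [Field E] [Algebra k E] (D : Derivation k E E)
    (d : ℕ) (p q : E[X]) (P : Finset E) : Prop where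
  hker : ∀ x, D x = 0 → ∃ c : k, x = algebraMap k E c
  hd : 2 ≤ d
  hp : p.natDegree ≤ d
  hq : q.natDegree = d
  hco : IsCoprime p q
  hP : Stab p q P
  hS : Sur p q P
  hiso : ¬ Pool.Agent.W277.UH.ConjConst k p q d

end Pool.Agent.Q41.SU
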