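import Mathlib

/-!
# Strong uniform boundedness over function fields: definitions

Conventions. `k` is an algebraically closed field, `E` an extension of `k` with an element `t`,
transcendental over `k`, and a finite group `G` of `k`-automorphisms of `E` fixing `t`, such that
the elements of `E` fixed by `G` are the rational functions of `t` (so `E / k(t)` is finite Galois
with group `G`). `Λ` is an algebraically closed ultrametric field over `k` with an element `s` of
norm `exp (-1)`, the nonzero constants having norm `1`; think of the algebraic closure of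
`k((s))`.
-/

namespace Pool.Agent.Q41.SU

open Finset Polynomial

universe u

/-! ## The determinants -/

/-- the index set of the rows and of the columns, with `(a + 1) * (b + 1)` elements -/
abbrev II (a b : ℕ) : Type := Fin (a + 1) × Fin (b + 1)

/-- the determinant with rows `l` and columns `c = (c₁, c₂)` and entries `u l ^ c₁ * v l ^ c₂` -/
def bd {A : Type*} [CommRing A] (a b : ℕ) (u v : II a b → A) : A :=
  Matrix.det (Matrix.of fun l c : II a b => u l ^ (c.1 : ℕ) * v l ^ (c.2 : ℕ))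

/-- the least value of the sum of `w₁ s + w₂ r` over `n` different points `(s, r)` of the box
`[0, a] × [0, b]` -/
noncomputable def phi (w₁ w₂ a b n : ℕ) : ℕ :=
  sInf {m : ℕ | ∃ T : Finset (II a b), T.card = n ∧ m = ∑ x ∈ T, (w₁ * (x.1 : ℕ) + w₂ * (x.2 : ℕ))}

/-- the number of the rows `m` in the class of level `i` of the row `l`, where `o l m` is the
order of contact of `l` and `m` -/
def cnt {ι : Type*} [Fintype ι] [DecidableEq ι] (o : ι → ι → ℤ) (i : ℕ) (l : ι) : ℕ :=
  (univ.filter fun m => m = l ∨ (i : ℤ) ≤ o l m).card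

/-- the sum of `F (size)` over all the classes of the levels `1, …, M` -/
noncomputable def LS {ι : Type*} [Fintype ι] [DecidableEq ι] (F : ℕ → ℝ) (M : ℕ)
    (o : ι → ι → ℤ) : ℝ :=
  ∑ i ∈ Finset.Icc 1 M, ∑ l, F (cnt o i l) / (cnt o i l : ℝ)

/-! ## Places -/

/-- the ambient field `Λ` with the uniformiser `s` and the endomorphisms `s ↦ c s ^ Θ` -/
structure IsAmb (k Λ : Type u) [Field k] [NormedField Λ] [Algebra k Λ] (s : Λ) : Prop where
  norm_s : ‖s‖ = Real.exp (-1)
  norm_c : ∀ c : k, c ≠ 0 → ‖algebraMap k Λ c‖ = 1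
  twist : ∀ Θ : ℕ, 1 ≤ Θ → ∀ c : k, c ≠ 0 → ∃ Φ : Λ →ₐ[k] Λ,
    Φ s = algebraMap k Λ c * s ^ Θ ∧ ∀ x, ‖Φ x‖ = ‖x‖ ^ Θ

/-- the embedding `ι` defines a place with ramification index `e`, valuation `u` (an integer, the
value at `0` being junk) and residue field `k` -/
structure IsPl (k : Type u) {E Λ : Type u} [Field k] [Field E] [Algebra k E] [NormedField Λ]
    [Algebra k Λ] (ι : E →ₐ[k] Λ) (e : ℕ) (u : E → ℤ) : Prop where
  he : 1 ≤ e
  norm : ∀ x, x ≠ 0 → ‖ι x‖ = Real.exp (-((u x : ℝ) / e))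
  unif : ∃ π, π ≠ 0 ∧ u π = 1
  digit : ∀ x, ‖ι x‖ ≤ 1 → ∃ c : k, ‖ι x - algebraMap k Λ c‖ < 1

/-- `E / k(t)` is Galois with the finite group `G` -/
structure IsGal (k : Type u) {E : Type u} [Field k] [Field E] [Algebra k E] (t : E)
    (G : Subgroup (E ≃ₐ[k] E)) : Prop where
  trans : Transcendental k t
  fix : ∀ g ∈ G, g t = t
  rat : ∀ x : E, (∀ g ∈ G, g x = x) → ∃ r q : k[X], q ≠ 0 ∧ x = aeval t r / aeval t q

/-- a place of `E` above every point `t₀` of the line, and above `∞` -/
structure PlSys (k E Λ : Type u) [Field k] [Field E] [Algebra k E] [NormedField Λ]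
    [Algebra k Λ] (t : E) (s : Λ) where
  /-- the embedding above `t₀` -/
  ι : k → (E →ₐ[k] Λ)
  hι : ∀ t₀, ι t₀ t = algebraMap k Λ t₀ + s
  /-- the embedding above `∞` -/
  ιi : E →ₐ[k] Λ
  hιi : ιi t = s⁻¹
  /-- the ramification index -/
  e : k → ℕ
  /-- the valuation -/
  u : k → E → ℤ
  pl : ∀ t₀, IsPl k (ι t₀) (e t₀) (u t₀)

variable {k E Λ : Type u} [Field k] [Field E] [Algebra k E] [NormedField Λ]
  [Algebra k Λ] {t : E} {s : Λ}

/-- `y` is integral at all the conjugates of the places outside `S₀`, and at those above `∞` -/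
def PlSys.Int (pp : PlSys k E Λ t s) (G : Subgroup (E ≃ₐ[k] E)) (S₀ : Finset k) (y : E) : Prop :=
  (∀ t₀, t₀ ∉ S₀ → ∀ g ∈ G, ‖pp.ι t₀ (g y)‖ ≤ 1) ∧ ∀ g ∈ G, ‖pp.ιi (g y)‖ ≤ 1

/-- `y` is a unit at all the conjugates of the places outside `S₀`, and at those above `∞` -/
def PlSys.Unit (pp : PlSys k E Λ t s) (G : Subgroup (E ≃ₐ[k] E)) (S₀ : Finset k) (y : E) : Prop :=
  (∀ t₀, t₀ ∉ S₀ → ∀ g ∈ G, ‖pp.ι t₀ (g y)‖ = 1) ∧ ∀ g ∈ G, ‖pp.ιi (g y)‖ = 1

/-! ## Moebius maps -/

/-- a matrix with rows `(α, β)` and `(γ, δ)` -/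
structure Mb (E : Type*) where
  (α β γ δ : E)

variable {F : Type*} [Field F]

/-- the determinant -/
def Mb.det (m : Mb F) : F := m.α * m.δ - m.β * m.γ

/-- the denominator at `x` -/
def Mb.den (m : Mb F) (x : F) : F := m.γ * x + m.δ

/-- the value at `x` -/
noncomputable def Mb.app (m : Mb F) (x : F) : F := (m.α * x + m.β) / m.den x

/-! ## Polynomials in two variables and Taylor series -/

/-- the value of the polynomial `F(T₁, T₂)` at the point `(x, y)` of a `k`-algebra; the outer
variable is `T₂` -/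
noncomputable def ev {k : Type*} [CommRing k] {A : Type*} [CommRing A] [Algebra k A]
    (F : k[X][X]) (x y : A) : A :=
  F.eval₂ ((aeval x : k[X] →ₐ[k] A) : k[X] →+* A) y

/-- the Taylor series `∑ D^n(x) / n! X^n` -/
noncomputable def tay {k E : Type*} [Field k] [Field E] [Algebra k E] (D : Derivation k E E)
    (x : E) : PowerSeries E :=
  PowerSeries.mk fun n => (n.factorial : E)⁻¹ * (D^[n]) x

/-- the rational map `p / q` of degree `d`, with `deg q = d`, maps the finite set `P` into itself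
(`P` does not contain `∞` or a preimage of `∞`) -/
def Stab {E : Type*} [Field E] (p q : E[X]) (P : Finset E) : Prop :=
  ∀ z ∈ P, q.eval z ≠ 0 ∧ p.eval z / q.eval z ∈ P

end Pool.Agent.Q41.SU
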