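import Pool.Agent.Q41.SU.Stm6
import Pool.Agent.Y706.BI.Stm2

/-!
# Statements, part 7: the final theorems
-/

namespace Pool.Agent.Q41.SU

open Finset Polynomial NumberField
open Pool.Agent.W277.UH (ConjConst ratP1)
open Pool.Agent.Y706.BI (IsoAlg generic genBar special others preperB AlmostAll)

universe u v

/-- (B1) **Strong uniform boundedness in characteristic zero.** Proof. `N n d` is the bound of (A6) for
`n!` (and at least `3 d + 4`). A set of preperiodic points with more than `N n d` elements contains a
finite stable set `P` with more elements (as in `Y706/BI/FinC.lean`, `exists_inv`,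
`TH951/P/Asm.lean`). `Pool.Agent.TH951.P.stableP_reduce` moves `∞` out of `P`, so one may assume
`p.natDegree ≤ d`, `q.natDegree = d`, `Stab p q P`, `P` in `L` (with `k` replaced by
`k₀ = algebraicClosure k L`: it suffices to show `ConjConst k₀ p q d`, which gives `IsoAlg k p q d`).
Take `k'`, `E`, `j`, `G` from (A7); by (A6) for `p.map j`, `q.map j`, `P.image j` one has
`ConjConst k' (p.map j) (q.map j) d`, so by (A4) all cross ratios of points of `P` are in `k'` after
`j`, so they are algebraic over `k`, that is in `k₀`; now `Pool.Agent.W277.UH.conj_of_cross` over `L`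
with `T = P` and the constants `k₀`. -/
def S_main : Prop := ∃ N : ℕ → ℕ → ℕ, ∀ (k : Type v) (L : Type u) [Field k] [CharZero k] [Field L]
    [Algebra k L] (t : L), Transcendental k t →
    FiniteDimensional (IntermediateField.adjoin k {t}) L →
    ∀ (n d : ℕ), Module.finrank (IntermediateField.adjoin k {t}) L ≤ n → 2 ≤ d →
    ∀ p q : L[X], IsCoprime p q → max p.natDegree q.natDegree = d →
    ¬ IsoAlg k p q d →
    {z : Option L | (Set.range fun m : ℕ => (ratP1 p q d)^[m] z).Finite}.encard ≤
      ((N n d : ℕ) : ℕ∞)

/-- (B2) **Points of bounded degree.** Proof: the seeds have the same for bicritical maps (`S_BDG` in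
`Y706/BI/Stm2.lean`, proof `Pool.Agent.Y31.BI.t_BDG` in `Y31/BI/Bdg.lean`) and for maps of large critical height (`t_BDG2`, `Y706/CH/Bdg2.lean`, and `t_BDC`
in `Y706/CH/Gon.lean`); omit the hypothesis. The property `¬ IsoAlg k … d` over the algebraic closure
passes to the extensions of `L` inside it. -/
def S_bdg : Prop := ∃ N : ℕ → ℕ → ℕ → ℕ, ∀ (k : Type v) (L : Type u) [Field k] [CharZero k]
    [Field L] [Algebra k L] (t : L), Transcendental k t →
    FiniteDimensional (IntermediateField.adjoin k {t}) L →
    ∀ (n D d : ℕ), Module.finrank (IntermediateField.adjoin k {t}) L ≤ n → 2 ≤ d →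
    ∀ p q : L[X], IsCoprime p q → max p.natDegree q.natDegree = d →
    ¬ IsoAlg k (p.map (algebraMap L (AlgebraicClosure L)))
      (q.map (algebraMap L (AlgebraicClosure L))) d →
    {z : Option (AlgebraicClosure L) | (Set.range fun m : ℕ =>
        (ratP1 (p.map (algebraMap L (AlgebraicClosure L)))
          (q.map (algebraMap L (AlgebraicClosure L))) d)^[m] z).Finite ∧
      ∀ x, z = some x → ∃ E : IntermediateField L (AlgebraicClosure L), FiniteDimensional L E ∧
        Module.finrank L E ≤ D ∧ x ∈ E}.encard ≤ ((N n D d : ℕ) : ℕ∞)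

/-- (B3) **Points of bounded gonality.** Proof: as `t_GON` in `Y706/CH/Gon.lean`, omit the hypothesis
that the map is bicritical. -/
def S_gon : Prop := ∃ N : ℕ → ℕ → ℕ, ∀ (k : Type v) (K : Type u) [Field k] [CharZero k] [Field K]
    [Algebra k K] (D d : ℕ), 2 ≤ d → ∀ p q : K[X], IsCoprime p q →
    max p.natDegree q.natDegree = d →
    ¬ IsoAlg k (p.map (algebraMap K (AlgebraicClosure K)))
      (q.map (algebraMap K (AlgebraicClosure K))) d →
    {z : Option (AlgebraicClosure K) | (Set.range fun m : ℕ =>
        (ratP1 (p.map (algebraMap K (AlgebraicClosure K)))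
          (q.map (algebraMap K (AlgebraicClosure K))) d)^[m] z).Finite ∧
      ∃ t : IntermediateField.adjoin K {x | z = some x}, Transcendental k t ∧
        FiniteDimensional (IntermediateField.adjoin k {t})
          (IntermediateField.adjoin K {x | z = some x}) ∧
        Module.finrank (IntermediateField.adjoin k {t})
          (IntermediateField.adjoin K {x | z = some x}) ≤ D}.encard ≤ ((N D d : ℕ) : ℕ∞)

/-- (B4) **Families over number fields, points of bounded degree.** Proof: `Y706/CH/Fm2.lean`
(`S_FAM2`, maps of large critical height) or the proof of `S_FAM` for bicritical maps (`Y681/BI/Fam.lean`; hand-ins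
`MP_90787a_nt/StrongFamilies`, `MP_13bc7b_nt`); omit the hypothesis on the map and use (B2). -/
def S_fam : Prop := ∃ N : ℕ → ℕ → ℕ, ∀ (k : Type) [Field k] [NumberField k] (J : Type) [Fintype J]
    (ω : Module.Basis J ℤ (𝓞 k)) (d B : ℕ), 2 ≤ d → 1 ≤ B →
    ∀ (m : ℕ) (P Q : (MvPolynomial (Fin m) k)[X]) (i : Fin m),
      max P.natDegree Q.natDegree = d → IsCoprime (generic P) (generic Q) →
      ¬ IsoAlg (others k i) (genBar P) (genBar Q) d →
      AlmostAll ω m {v | v 0 ≠ 0 ∧ IsCoprime (special v P) (special v Q) ∧
        max (special v P).natDegree (special v Q).natDegree = d ∧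
        (preperB (special v P) (special v Q) d B).encard ≤ ((N B d : ℕ) : ℕ∞)}

end Pool.Agent.Q41.SU
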